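import Pool.Agent.Helper73.Reg.Cases

namespace Pool.Agent.Helper73.Reg

theorem affine_inj {K D c l l' : ℕ} (hD : Odd D) (hl : l < 2 ^ K) (hl' : l' < 2 ^ K)
    (h : (c + l * D) % 2 ^ K = (c + l' * D) % 2 ^ K) : l = l' := by
  have h1 : c + l * D ≡ c + l' * D [MOD 2 ^ K] := h
  have h2 : l * D ≡ l' * D [MOD 2 ^ K] := Nat.ModEq.add_left_cancel' c h1
  have hco : Nat.gcd (2 ^ K) D = 1 := (Nat.Coprime.pow_left K (Nat.coprime_two_left.2 hD))
  have h3 : l ≡ l' [MOD 2 ^ K] := Nat.ModEq.cancel_right_of_coprime hco h2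
  have h4 : l % 2 ^ K = l' % 2 ^ K := h3
  rwa [Nat.mod_eq_of_lt hl, Nat.mod_eq_of_lt hl'] at h4

theorem affine_surj {K D : ℕ} (hD : Odd D) (c r : ℕ) (hr : r < 2 ^ K) :
    ∃ l < 2 ^ K, (c + l * D) % 2 ^ K = r := by
  have hpos : 0 < 2 ^ K := by positivity
  let f : Fin (2 ^ K) → Fin (2 ^ K) := fun l => ⟨(c + l * D) % 2 ^ K, Nat.mod_lt _ hpos⟩
  have hf : Function.Injective f := by
    intro a b hab
    have := congrArg Fin.val hab
    exact Fin.ext (affine_inj hD a.2 b.2 this)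
  obtain ⟨l, hl⟩ := Finite.surjective_of_injective hf ⟨r, hr⟩
  exact ⟨l, l.2, congrArg Fin.val hl⟩

theorem exists_good {K n D₁ D₂ c₁ c₂ : ℕ} (hD₁ : Odd D₁) (hD₂ : D₂ = 0 ∨ Odd D₂)
    (hlt : 2 ^ n * D₂ < D₁) (hnK : n ≤ K) (hK₁ : D₁ ≤ 2 ^ K) (hK₂ : D₂ ≤ 2 ^ (K - n)) :
    ∃ l < 2 ^ K, 2 ^ K ≤ (c₁ + l * D₁) % 2 ^ K + D₁ ∧
      (c₂ + l * D₂) % 2 ^ (K - n) + D₂ < 2 ^ (K - n) := by
  rcases hD₂ with h0 | hD₂
  · obtain ⟨l, hl, h⟩ := affine_surj hD₁ c₁ (2 ^ K - 1) (Nat.sub_lt (by positivity) one_pos)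
    refine ⟨l, hl, ?_, ?_⟩
    · rw [h]; have := hD₁.pos; omega
    · rw [h0, add_zero]; exact Nat.mod_lt _ (by positivity)
  by_contra hcon
  push Not at hcon
  -- the long carries of the first progression
  have hsurj : ∀ j : Fin D₁, ∃ l < 2 ^ K, (c₁ + l * D₁) % 2 ^ K = 2 ^ K - 1 - j :=
    fun j => affine_surj hD₁ c₁ _ (by have := j.2; omega)
  choose g hg1 hg2 using hsurj
  have hginj : Function.Injective g := by
    intro a b hab
    have h1 := hg2 a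
    rw [hab, hg2 b] at h1
    have := a.2; have := b.2
    exact Fin.ext (by omega)
  have hgood : ∀ j : Fin D₁, 2 ^ (K - n) ≤ (c₂ + g j * D₂) % 2 ^ (K - n) + D₂ := by
    intro j
    refine hcon _ (hg1 j) ?_
    rw [hg2]; have := j.2; omega
  -- map into pairs
  have hpw : 2 ^ K = 2 ^ (K - n) * 2 ^ n := by rw [← pow_add]; congr 1; omega
  have hposK : 0 < 2 ^ (K - n) := by positivity
  let F : Fin D₁ → Fin (2 ^ n) × Fin D₂ := fun j =>
    (⟨((c₂ + g j * D₂) % 2 ^ K) / 2 ^ (K - n), by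
        rw [Nat.div_lt_iff_lt_mul hposK, mul_comm (2 ^ n), ← hpw]
        exact Nat.mod_lt _ (by positivity)⟩,
      ⟨2 ^ (K - n) - 1 - (c₂ + g j * D₂) % 2 ^ (K - n), by
        have h1 := hgood j
        have h2 : (c₂ + g j * D₂) % 2 ^ (K - n) < 2 ^ (K - n) := Nat.mod_lt _ hposK
        omega⟩)
  have hF : Function.Injective F := by
    intro a b hab
    have h1 : ((c₂ + g a * D₂) % 2 ^ K) / 2 ^ (K - n) = ((c₂ + g b * D₂) % 2 ^ K) / 2 ^ (K - n) :=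
      congrArg (fun x => x.1.val) hab
    have h2 : 2 ^ (K - n) - 1 - (c₂ + g a * D₂) % 2 ^ (K - n) =
        2 ^ (K - n) - 1 - (c₂ + g b * D₂) % 2 ^ (K - n) := congrArg (fun x => x.2.val) hab
    have h3 : (c₂ + g a * D₂) % 2 ^ (K - n) < 2 ^ (K - n) := Nat.mod_lt _ hposK
    have h4 : (c₂ + g b * D₂) % 2 ^ (K - n) < 2 ^ (K - n) := Nat.mod_lt _ hposK
    have h5 : (c₂ + g a * D₂) % 2 ^ (K - n) = (c₂ + g b * D₂) % 2 ^ (K - n) := by omega
    have hdvd : 2 ^ (K - n) ∣ 2 ^ K := pow_dvd_pow 2 (by omega)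
    have h6 : (c₂ + g a * D₂) % 2 ^ K % 2 ^ (K - n) = (c₂ + g b * D₂) % 2 ^ K % 2 ^ (K - n) := by
      rw [Nat.mod_mod_of_dvd _ hdvd, Nat.mod_mod_of_dvd _ hdvd, h5]
    have h7 : (c₂ + g a * D₂) % 2 ^ K = (c₂ + g b * D₂) % 2 ^ K := by
      rw [← Nat.div_add_mod ((c₂ + g a * D₂) % 2 ^ K) (2 ^ (K - n)), h1, h6, Nat.div_add_mod]
    exact hginj (affine_inj hD₂ (hg1 a) (hg1 b) h7)
  have hcard := Fintype.card_le_of_injective F hF
  simp only [Fintype.card_prod, Fintype.card_fin] at hcard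
  omega

theorem exists_residue {n D : ℕ} (hD : Odd D) (c r : ℕ) (hr : r < 2 ^ (n + 1)) :
    ∃ x, 4 ≤ x ∧ x < 4 + 2 ^ (n + 1) ∧ (c + x * D) % 2 ^ (n + 1) = r := by
  obtain ⟨l, hl, h⟩ := affine_surj hD (c + 4 * D) r hr
  refine ⟨4 + l, by omega, by omega, ?_⟩
  rw [← h]; congr 1; ring

/-- Affine progressions with a long carry in the upper part are not monochromatic. -/
theorem noAP_B {v : List Bool} (hv : v ≠ []) {K D D' e Y Z : ℕ} (hD : Odd D)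
    (hD' : D' = 0 ∨ Odd D') (hlt : 2 ^ v.length * D' < D) (hnK : v.length ≤ K)
    (hK₁ : D ≤ 2 ^ K) (hK₂ : D' ≤ 2 ^ (K - v.length)) (he : K + v.length ≤ e)
    (hZ : ∀ l ≤ 2 ^ K * (2 ^ (v.length + 1) + 6), Z + l * (2 ^ v.length * D') < 2 ^ e ∧
      (Z + l * (2 ^ v.length * D')) / 2 ^ (e - v.length) = Z / 2 ^ (e - v.length)) (c : ZMod 2)
    (hmono : ∀ l ≤ 2 ^ K * (2 ^ (v.length + 1) + 6),
      cv v (2 ^ e * (Y + l * D) + (Z + l * (2 ^ v.length * D'))) = c) : False := by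
  obtain ⟨r₁, r₂, hlt1, hlt2, hr, hr4, hr4', hsp⟩ := exists_special v hv
  have hn : 1 ≤ v.length := List.length_pos_iff.2 hv
  set n := v.length with hndef
  obtain ⟨l, hl, hgood1, hgood2⟩ := exists_good (c₁ := Y) (c₂ := Z / 2 ^ n) hD hD' hlt hnK hK₁ hK₂
  set u₀ := (Y + l * D) / 2 ^ K with hu0
  set ρ := (Y + l * D) % 2 ^ K with hρ
  have hdm : Y + l * D = 2 ^ K * u₀ + ρ := (Nat.div_add_mod _ _).symm
  have hρlt : ρ < 2 ^ K := Nat.mod_lt _ (by positivity)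
  obtain ⟨x₁, hx1, hx1', hx1r⟩ := exists_residue (n := n) hD u₀ r₁ (by omega)
  obtain ⟨x₂, hx2, hx2', hx2r⟩ := exists_residue (n := n) hD u₀ r₂ (by omega)
  have hDpos := hD.pos
  -- indices are in range
  have hrange : ∀ x, x < 4 + 2 ^ (n + 1) → l + 2 ^ K * x + 1 ≤ 2 ^ K * (2 ^ (n + 1) + 6) := by
    intro x hx
    have h1 : 2 ^ K * x ≤ 2 ^ K * (3 + 2 ^ (n + 1)) := Nat.mul_le_mul_left _ (by omega)
    have h2 : 1 ≤ 2 ^ K := Nat.one_le_two_pow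
    nlinarith
  have hY : ∀ x, Y + (l + 2 ^ K * x) * D = 2 ^ K * (u₀ + x * D) + ρ := by
    intro x
    have : Y + (l + 2 ^ K * x) * D = (Y + l * D) + 2 ^ K * (x * D) := by ring
    rw [this, hdm]; ring
  have hY' : ∀ x, Y + (l + 2 ^ K * x + 1) * D = 2 ^ K * (u₀ + x * D + 1) + (ρ + D - 2 ^ K) := by
    intro x
    have h1 : Y + (l + 2 ^ K * x + 1) * D = (Y + (l + 2 ^ K * x) * D) + D := by ring
    rw [h1, hY x]
    have h2 : 2 ^ K ≤ ρ + D := hgood1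
    have h3 : 2 ^ K * (u₀ + x * D + 1) = 2 ^ K * (u₀ + x * D) + 2 ^ K := by ring
    omega
  -- the lower part
  have hZdm : ∀ m, Z + m * (2 ^ n * D') = 2 ^ n * (Z / 2 ^ n + m * D') + Z % 2 ^ n := by
    intro m
    conv_lhs => rw [← Nat.div_add_mod Z (2 ^ n)]
    ring
  have hμ : Z % 2 ^ n < 2 ^ n := Nat.mod_lt _ (by positivity)
  have hcongr : ∀ x y j, (Z / 2 ^ n + (l + 2 ^ K * x + j) * D') % 2 ^ K =
      (Z / 2 ^ n + (l + 2 ^ K * y + j) * D') % 2 ^ K := by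
    intro x y j
    have h1 : ∀ x, Z / 2 ^ n + (l + 2 ^ K * x + j) * D' =
        (Z / 2 ^ n + (l + j) * D') + 2 ^ K * (x * D') := by intro x; ring
    rw [h1 x, h1 y, Nat.add_mul_mod_self_left, Nat.add_mul_mod_self_left]
  have hm : ∀ x y j, (Z + (l + 2 ^ K * x + j) * (2 ^ n * D')) % 2 ^ (K + n - 1) =
      (Z + (l + 2 ^ K * y + j) * (2 ^ n * D')) % 2 ^ (K + n - 1) := by
    intro x y j
    rw [hZdm, hZdm]
    exact mod_of_mod (congr_affine (hcongr x y j)) (by omega)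
  have ht : ∀ x, (Z + (l + 2 ^ K * x + 0) * (2 ^ n * D')) / 2 ^ K =
      (Z + (l + 2 ^ K * x + 1) * (2 ^ n * D')) / 2 ^ K := by
    intro x
    have hq : ∀ m, (Z + m * (2 ^ n * D')) / 2 ^ K = (Z / 2 ^ n + m * D') / 2 ^ (K - n) := by
      intro m
      rw [hZdm m, div_split _ K n hnK, div_of_lt _ _ _ hμ]
    rw [hq, hq]
    have h1 : Z / 2 ^ n + (l + 2 ^ K * x + 1) * D' = (Z / 2 ^ n + (l + 2 ^ K * x + 0) * D') + D' := by
      ring
    have h2 : (Z / 2 ^ n + (l + 2 ^ K * x + 0) * D') % 2 ^ (K - n) =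
        (Z / 2 ^ n + l * D') % 2 ^ (K - n) := by
      have h3 : Z / 2 ^ n + (l + 2 ^ K * x + 0) * D' =
          (Z / 2 ^ n + l * D') + 2 ^ (K - n) * (2 ^ n * (x * D')) := by
        have : 2 ^ K = 2 ^ (K - n) * 2 ^ n := by rw [← pow_add]; congr 1; omega
        rw [this]; ring
      rw [h3, Nat.add_mul_mod_self_left]
    rw [h1]
    set w := Z / 2 ^ n + (l + 2 ^ K * x + 0) * D' with hw
    rw [← h2] at hgood2
    have h4 := Nat.div_add_mod w (2 ^ (K - n))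
    conv_rhs => rw [← h4, add_assoc]
    rw [Nat.mul_add_div (by positivity), Nat.div_eq_of_lt hgood2, add_zero]
  have key := caseB hv hr hr4 hr4' hlt1 hlt2 hsp (e := e) (K := K)
    (u := u₀ + x₁ * D) (u' := u₀ + x₂ * D) (ρ := ρ) (ρ' := ρ + D - 2 ^ K)
    (Za := Z + (l + 2 ^ K * x₁ + 0) * (2 ^ n * D')) (Za' := Z + (l + 2 ^ K * x₁ + 1) * (2 ^ n * D'))
    (Zb := Z + (l + 2 ^ K * x₂ + 0) * (2 ^ n * D')) (Zb' := Z + (l + 2 ^ K * x₂ + 1) * (2 ^ n * D'))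
    (q := Z / 2 ^ (e - n)) he (by nlinarith) (by nlinarith) hx1r hx2r hρlt (by omega)
    (hZ _ (by have := hrange x₁ hx1'; omega)).1 (hZ _ (hrange x₁ hx1')).1
    (hZ _ (by have := hrange x₂ hx2'; omega)).1 (hZ _ (hrange x₂ hx2')).1
    (hZ _ (by have := hrange x₁ hx1'; omega)).2 (hZ _ (hrange x₁ hx1')).2
    (hZ _ (by have := hrange x₂ hx2'; omega)).2 (hZ _ (hrange x₂ hx2')).2
    (hm x₁ x₂ 0) (hm x₁ x₂ 1) (ht x₁) (ht x₂)
  have e1 := hmono (l + 2 ^ K * x₁ + 0) (by have := hrange x₁ hx1'; omega)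
  have e2 := hmono (l + 2 ^ K * x₁ + 1) (hrange x₁ hx1')
  have e3 := hmono (l + 2 ^ K * x₂ + 0) (by have := hrange x₂ hx2'; omega)
  have e4 := hmono (l + 2 ^ K * x₂ + 1) (hrange x₂ hx2')
  rw [add_zero, hY, ← add_zero (l + 2 ^ K * x₁)] at e1
  rw [add_zero, hY, ← add_zero (l + 2 ^ K * x₂)] at e3
  rw [hY'] at e2 e4
  rw [e1, e2, e3, e4] at key
  rcases z2_cases c with rfl | rfl
  · simp at key
  · revert key; decide

/-- Affine progressions with a long carry in the lower part are not monochromatic. -/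
theorem noAP_A {v : List Bool} (hv : v ≠ []) {K D D' e Y Z : ℕ} (hD : Odd D)
    (hD' : Odd D') (hlt : 2 ^ v.length * D < D') (hnK : v.length ≤ K)
    (hK₁ : D' ≤ 2 ^ K) (hK₂ : D ≤ 2 ^ (K - v.length)) (he : K + 2 * v.length + 2 ≤ e)
    (hZ : ∀ l ≤ 2 ^ K * (2 ^ (v.length + 1) + 6), Z + l * (2 ^ v.length * D') < 2 ^ e ∧
      (Z + l * (2 ^ v.length * D')) / 2 ^ (e - v.length) = Z / 2 ^ (e - v.length)) (c : ZMod 2)
    (hmono : ∀ l ≤ 2 ^ K * (2 ^ (v.length + 1) + 6),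
      cv v (2 ^ e * (Y + l * D) + (Z + l * (2 ^ v.length * D'))) = c) : False := by
  obtain ⟨r₁, r₂, hlt1, hlt2, hr, hr4, hr4', hsp⟩ := exists_special v hv
  have hn : 1 ≤ v.length := List.length_pos_iff.2 hv
  set n := v.length with hndef
  obtain ⟨l, hl, hgood1, hgood2⟩ :=
    exists_good (c₁ := Z / 2 ^ n) (c₂ := Y) hD' (Or.inr hD) hlt hnK hK₁ hK₂
  set u₀ := (Z / 2 ^ n + l * D') / 2 ^ K with hu0
  set ρ := (Z / 2 ^ n + l * D') % 2 ^ K with hρ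
  have hdm : Z / 2 ^ n + l * D' = 2 ^ K * u₀ + ρ := (Nat.div_add_mod _ _).symm
  have hρlt : ρ < 2 ^ K := Nat.mod_lt _ (by positivity)
  obtain ⟨x₁, hx1, hx1', hx1r⟩ := exists_residue (n := n) hD' u₀ r₁ (by omega)
  obtain ⟨x₂, hx2, hx2', hx2r⟩ := exists_residue (n := n) hD' u₀ r₂ (by omega)
  have hDpos := hD.pos
  have hrange : ∀ x, x < 4 + 2 ^ (n + 1) → l + 2 ^ K * x + 1 ≤ 2 ^ K * (2 ^ (n + 1) + 6) := by
    intro x hx
    have h1 : 2 ^ K * x ≤ 2 ^ K * (3 + 2 ^ (n + 1)) := Nat.mul_le_mul_left _ (by omega)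
    have h2 : 1 ≤ 2 ^ K := Nat.one_le_two_pow
    nlinarith
  have hZdm : ∀ m, Z + m * (2 ^ n * D') = 2 ^ n * (Z / 2 ^ n + m * D') + Z % 2 ^ n := by
    intro m
    conv_lhs => rw [← Nat.div_add_mod Z (2 ^ n)]
    ring
  have hμ : Z % 2 ^ n < 2 ^ n := Nat.mod_lt _ (by positivity)
  have hW : ∀ x, Z + (l + 2 ^ K * x) * (2 ^ n * D') =
      2 ^ n * (2 ^ K * (u₀ + x * D') + ρ) + Z % 2 ^ n := by
    intro x
    rw [hZdm]
    have : Z / 2 ^ n + (l + 2 ^ K * x) * D' = (Z / 2 ^ n + l * D') + 2 ^ K * (x * D') := by ring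
    rw [this, hdm]; ring
  have hW' : ∀ x, Z + (l + 2 ^ K * x + 1) * (2 ^ n * D') =
      2 ^ n * (2 ^ K * (u₀ + x * D' + 1) + (ρ + D' - 2 ^ K)) + Z % 2 ^ n := by
    intro x
    rw [hZdm]
    have h1 : Z / 2 ^ n + (l + 2 ^ K * x + 1) * D' =
        (Z / 2 ^ n + l * D') + 2 ^ K * (x * D') + D' := by ring
    rw [h1, hdm]
    have h2 : 2 ^ K ≤ ρ + D' := hgood1
    have h3 : 2 ^ K * (u₀ + x * D' + 1) = 2 ^ K * u₀ + 2 ^ K * (x * D') + 2 ^ K := by ring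
    congr 2
    omega
  have hYm : ∀ x y j, (Y + (l + 2 ^ K * x + j) * D) % 2 ^ K =
      (Y + (l + 2 ^ K * y + j) * D) % 2 ^ K := by
    intro x y j
    have h1 : ∀ x, Y + (l + 2 ^ K * x + j) * D =
        (Y + (l + j) * D) + 2 ^ K * (x * D) := by intro x; ring
    rw [h1 x, h1 y, Nat.add_mul_mod_self_left, Nat.add_mul_mod_self_left]
  have hYt : ∀ x, (Y + (l + 2 ^ K * x + 0) * D) / 2 ^ (K - n) =
      (Y + (l + 2 ^ K * x + 1) * D) / 2 ^ (K - n) := by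
    intro x
    have h1 : Y + (l + 2 ^ K * x + 1) * D = (Y + (l + 2 ^ K * x + 0) * D) + D := by ring
    have h2 : (Y + (l + 2 ^ K * x + 0) * D) % 2 ^ (K - n) = (Y + l * D) % 2 ^ (K - n) := by
      have h3 : Y + (l + 2 ^ K * x + 0) * D =
          (Y + l * D) + 2 ^ (K - n) * (2 ^ n * (x * D)) := by
        have : 2 ^ K = 2 ^ (K - n) * 2 ^ n := by rw [← pow_add]; congr 1; omega
        rw [this]; ring
      rw [h3, Nat.add_mul_mod_self_left]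
    rw [h1]
    set w := Y + (l + 2 ^ K * x + 0) * D with hw
    rw [← h2] at hgood2
    have h4 := Nat.div_add_mod w (2 ^ (K - n))
    conv_rhs => rw [← h4, add_assoc]
    rw [Nat.mul_add_div (by positivity), Nat.div_eq_of_lt hgood2, add_zero]
  have hYbig : ∀ x j, 4 ≤ x → 2 ^ K ≤ Y + (l + 2 ^ K * x + j) * D := by
    intro x j hx
    have h1 : 2 ^ K * 1 ≤ 2 ^ K * x := Nat.mul_le_mul_left _ (by omega)
    have h2 : (l + 2 ^ K * x + j) * 1 ≤ (l + 2 ^ K * x + j) * D := Nat.mul_le_mul_left _ hDpos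
    omega
  have zz : ∀ x, x < 4 + 2 ^ (n + 1) → _ := fun x hx =>
    hZ (l + 2 ^ K * x) (by have := hrange x hx; omega)
  have zz' : ∀ x, x < 4 + 2 ^ (n + 1) → _ := fun x hx => hZ (l + 2 ^ K * x + 1) (hrange x hx)
  simp only [hW] at zz
  simp only [hW'] at zz'
  have key := caseA hv hr hr4 hr4' hlt1 hlt2 hsp (e := e) (K := K)
    (u := u₀ + x₁ * D') (u' := u₀ + x₂ * D') (ρ := ρ) (ρ' := ρ + D' - 2 ^ K) (μ := Z % 2 ^ n)
    (Ya := Y + (l + 2 ^ K * x₁ + 0) * D) (Ya' := Y + (l + 2 ^ K * x₁ + 1) * D)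
    (Yb := Y + (l + 2 ^ K * x₂ + 0) * D) (Yb' := Y + (l + 2 ^ K * x₂ + 1) * D)
    (q := Z / 2 ^ (e - n)) he hnK hx1r hx2r hρlt (by omega) hμ
    (hYbig _ _ hx1) (hYbig _ _ hx1) (hYbig _ _ hx2) (hYbig _ _ hx2)
    (zz x₁ hx1').1 (zz' x₁ hx1').1 (zz x₂ hx2').1 (zz' x₂ hx2').1
    (zz x₁ hx1').2 (zz' x₁ hx1').2 (zz x₂ hx2').2 (zz' x₂ hx2').2
    (hYm x₁ x₂ 0) (hYm x₁ x₂ 1) (hYt x₁) (hYt x₂)
  have e1 := hmono (l + 2 ^ K * x₁) (by have := hrange x₁ hx1'; omega)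
  have e2 := hmono (l + 2 ^ K * x₁ + 1) (hrange x₁ hx1')
  have e3 := hmono (l + 2 ^ K * x₂) (by have := hrange x₂ hx2'; omega)
  have e4 := hmono (l + 2 ^ K * x₂ + 1) (hrange x₂ hx2')
  rw [hW] at e1 e3
  rw [hW'] at e2 e4
  simp only [add_zero] at key
  rw [e1, e2, e3, e4] at key
  rcases z2_cases c with rfl | rfl
  · simp at key
  · revert key; decide

/-- sub-block on which the top digits of the lower part are constant -/
theorem sub_block {n e D D' H s : ℕ} (hn : n ≤ e)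
    (hbound : (2 * H) * (2 ^ n * D') ≤ 2 ^ (e - n)) :
    ∃ l₀ Y Z, l₀ + H ≤ 2 * H ∧ ∀ l ≤ H,
      s + (l₀ + l) * (2 ^ e * D + 2 ^ n * D') = 2 ^ e * (Y + l * D) + (Z + l * (2 ^ n * D')) ∧
      Z + l * (2 ^ n * D') < 2 ^ e ∧ (Z + l * (2 ^ n * D')) / 2 ^ (e - n) = Z / 2 ^ (e - n) := by
  set d' := 2 ^ n * D' with hd'
  set M : ℕ → ℕ := fun l => s % 2 ^ e + l * d' with hM
  have hMs : ∀ l, s + l * (2 ^ e * D + d') = 2 ^ e * (s / 2 ^ e + l * D) + M l := by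
    intro l
    simp only [hM]
    conv_lhs => rw [← Nat.div_add_mod s (2 ^ e)]
    ring
  have hMadd : ∀ l₀ l, M (l₀ + l) = M l₀ + l * d' := by
    intro l₀ l; simp only [hM]; ring
  -- it suffices to find a block with constant quotient
  suffices hsuf : ∃ l₀, l₀ + H ≤ 2 * H ∧ ∀ l ≤ H, M (l₀ + l) / 2 ^ (e - n) = M l₀ / 2 ^ (e - n) by
    obtain ⟨l₀, h1, h2⟩ := hsuf
    refine ⟨l₀, s / 2 ^ e + l₀ * D + M l₀ / 2 ^ e, M l₀ % 2 ^ e, h1, fun l hl => ?_⟩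
    have h3 := h2 l hl
    have h4 : M (l₀ + l) / 2 ^ e = M l₀ / 2 ^ e := by
      rw [div_split _ e (e - n) (by omega), h3, ← div_split _ e (e - n) (by omega)]
    have h5 : M (l₀ + l) % 2 ^ e = M l₀ % 2 ^ e + l * d' := by
      have h6 := Nat.div_add_mod (M (l₀ + l)) (2 ^ e)
      have h7 := Nat.div_add_mod (M l₀) (2 ^ e)
      have h8 := hMadd l₀ l
      rw [h4] at h6
      omega
    refine ⟨?_, ?_, ?_⟩
    · rw [hMs, ← Nat.div_add_mod (M (l₀ + l)) (2 ^ e), h4, h5]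
      ring
    · rw [← h5]; exact Nat.mod_lt _ (by positivity)
    · rw [← h5]
      have h9 : ∀ x, (x % 2 ^ e) / 2 ^ (e - n) = (x / 2 ^ (e - n)) % 2 ^ n := by
        intro x
        rw [window_eq]; congr 3; omega
      rw [h9, h9, h3]
  have hmonoM : ∀ a b, a ≤ b → M a / 2 ^ (e - n) ≤ M b / 2 ^ (e - n) := by
    intro a b hab
    apply Nat.div_le_div_right
    simp only [hM]
    have := Nat.mul_le_mul_right d' hab
    omega
  by_cases hc : M H / 2 ^ (e - n) = M 0 / 2 ^ (e - n)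
  · refine ⟨0, by omega, fun l hl => ?_⟩
    have a1 := hmonoM 0 (0 + l) (by omega)
    have a2 := hmonoM (0 + l) H (by omega)
    omega
  · refine ⟨H, by omega, fun l hl => ?_⟩
    have a1 := hmonoM 0 H (by omega)
    have a2 := hmonoM H (H + l) (by omega)
    have a3 := hmonoM (H + l) (2 * H) (by omega)
    have a4 : M (2 * H) / 2 ^ (e - n) ≤ M 0 / 2 ^ (e - n) + 1 := by
      have h1 : M (2 * H) ≤ M 0 + 2 ^ (e - n) * 1 := by
        simp only [hM]; omega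
      calc M (2 * H) / 2 ^ (e - n) ≤ (M 0 + 2 ^ (e - n) * 1) / 2 ^ (e - n) :=
            Nat.div_le_div_right h1
        _ = _ := by rw [Nat.add_mul_div_left _ _ (by positivity)]
    omega

end Pool.Agent.Helper73.Reg
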