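import Pool.Agent.Helper73.Reg.Quad

namespace Pool.Agent.Helper73.Reg

theorem mod_low (e m Y Z : ℕ) (h : m ≤ e) : (2 ^ e * Y + Z) % 2 ^ m = Z % 2 ^ m := by
  obtain ⟨t, rfl⟩ := Nat.exists_eq_add_of_le h
  rw [pow_add, mul_assoc, Nat.mul_add_mod]

theorem div_high (e m Y Z : ℕ) (h : m ≤ e) :
    (2 ^ e * Y + Z) / 2 ^ m = 2 ^ (e - m) * Y + Z / 2 ^ m := by
  obtain ⟨t, rfl⟩ := Nat.exists_eq_add_of_le h
  rw [pow_add, mul_assoc, Nat.mul_add_div (by positivity), Nat.add_sub_cancel_left]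

theorem div_of_lt (e Y Z : ℕ) (h : Z < 2 ^ e) : (2 ^ e * Y + Z) / 2 ^ e = Y := by
  rw [Nat.mul_add_div (by positivity), Nat.div_eq_of_lt h, add_zero]

theorem div_split (x p q : ℕ) (h : q ≤ p) : x / 2 ^ p = x / 2 ^ q / 2 ^ (p - q) := by
  rw [Nat.div_div_eq_div_mul, ← pow_add, show q + (p - q) = p by omega]

theorem congr_affine {n m x y z : ℕ} (h : x % 2 ^ m = y % 2 ^ m) :
    (2 ^ n * x + z) % 2 ^ (n + m) = (2 ^ n * y + z) % 2 ^ (n + m) := by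
  have h1 : (2 ^ n * x) ≡ (2 ^ n * y) [MOD 2 ^ (n + m)] := by
    rw [pow_add]; exact Nat.ModEq.mul_left' _ h
  exact h1.add_right z

theorem mod_of_mod {x y m k : ℕ} (h : x % 2 ^ m = y % 2 ^ m) (hk : k ≤ m) :
    x % 2 ^ k = y % 2 ^ k := by
  have hd : 2 ^ k ∣ 2 ^ m := pow_dvd_pow 2 hk
  rw [← Nat.mod_mod_of_dvd x hd, h, Nat.mod_mod_of_dvd y hd]

theorem le_of_quot {x p q u : ℕ} (h : x / 2 ^ q = u) (hu : 1 ≤ u) (hp : p ≤ q) : 2 ^ p ≤ x := by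
  have h1 : 2 ^ q * u ≤ x := by rw [← h]; exact Nat.mul_div_le _ _
  have h2 : 2 ^ p ≤ 2 ^ q := Nat.pow_le_pow_right (by norm_num) hp
  nlinarith

/-- The long carry is in the upper part. -/
theorem caseB {v : List Bool} (hv : v ≠ []) {r₁ r₂ : ℕ}
    (hr : r₁ % 2 ^ (v.length - 1) = r₂ % 2 ^ (v.length - 1))
    (hr4 : r₁ / 4 = (r₁ + 1) / 4) (hr4' : r₂ / 4 = (r₂ + 1) / 4)
    (hlt : r₁ + 1 < 2 ^ (v.length + 1)) (hlt' : r₂ + 1 < 2 ^ (v.length + 1))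
    (hsp : ∀ x x' y y' : ℕ, 2 ≤ x → 2 ≤ x' → 2 ≤ y → 2 ≤ y' →
        x % 2 ^ (v.length + 1) = r₁ → x' % 2 ^ (v.length + 1) = r₁ + 1 →
        y % 2 ^ (v.length + 1) = r₂ → y' % 2 ^ (v.length + 1) = r₂ + 1 →
        (wv v x + wv v x' + wv v y + wv v y') +
          (wv v (x / 2) + wv v (x' / 2) + wv v (y / 2) + wv v (y' / 2)) = 1)
    {e K u u' ρ ρ' Za Za' Zb Zb' q : ℕ}
    (he : K + v.length ≤ e) (hu : 4 ≤ u) (hu' : 4 ≤ u')
    (hur : u % 2 ^ (v.length + 1) = r₁) (hur' : u' % 2 ^ (v.length + 1) = r₂)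
    (hρ : ρ < 2 ^ K) (hρ' : ρ' < 2 ^ K)
    (ha : Za < 2 ^ e) (ha' : Za' < 2 ^ e) (hb : Zb < 2 ^ e) (hb' : Zb' < 2 ^ e)
    (qa : Za / 2 ^ (e - v.length) = q) (qa' : Za' / 2 ^ (e - v.length) = q)
    (qb : Zb / 2 ^ (e - v.length) = q) (qb' : Zb' / 2 ^ (e - v.length) = q)
    (m1 : Za % 2 ^ (K + v.length - 1) = Zb % 2 ^ (K + v.length - 1))
    (m2 : Za' % 2 ^ (K + v.length - 1) = Zb' % 2 ^ (K + v.length - 1))
    (t1 : Za / 2 ^ K = Za' / 2 ^ K) (t2 : Zb / 2 ^ K = Zb' / 2 ^ K) :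
    cv v (2 ^ e * (2 ^ K * u + ρ) + Za) + cv v (2 ^ e * (2 ^ K * (u + 1) + ρ') + Za') +
      cv v (2 ^ e * (2 ^ K * u' + ρ) + Zb) + cv v (2 ^ e * (2 ^ K * (u' + 1) + ρ') + Zb') = 1 := by
  have hn : 1 ≤ v.length := List.length_pos_iff.2 hv
  set n := v.length with hndef
  -- quotients at e + K
  have quo : ∀ U R Z : ℕ, R < 2 ^ K → Z < 2 ^ e →
      (2 ^ e * (2 ^ K * U + R) + Z) / 2 ^ (e + K) = U := by
    intro U R Z hR hZ
    rw [pow_add, ← Nat.div_div_eq_div_mul, div_of_lt _ _ _ hZ, div_of_lt _ _ _ hR]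
  have Qa := quo u ρ Za hρ ha
  have Qa' := quo (u + 1) ρ' Za' hρ' ha'
  have Qb := quo u' ρ Zb hρ hb
  have Qb' := quo (u' + 1) ρ' Zb' hρ' hb'
  set a := 2 ^ e * (2 ^ K * u + ρ) + Za with hadef
  set a' := 2 ^ e * (2 ^ K * (u + 1) + ρ') + Za' with hadef'
  set b := 2 ^ e * (2 ^ K * u' + ρ) + Zb with hbdef
  set b' := 2 ^ e * (2 ^ K * (u' + 1) + ρ') + Zb' with hbdef'
  have big : ∀ p ≤ e + K, 2 ^ p ≤ a ∧ 2 ^ p ≤ a' ∧ 2 ^ p ≤ b ∧ 2 ^ p ≤ b' := fun p hp =>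
    ⟨le_of_quot Qa (by omega) hp, le_of_quot Qa' (by omega) hp, le_of_quot Qb (by omega) hp,
      le_of_quot Qb' (by omega) hp⟩
  refine quad hv (P := e + K) (Q := e + K + 2) le_rfl ?_ ?_ (fun p h1 h2 => by omega) ?_ ?_
  · intro p hp
    obtain ⟨g1, g2, g3, g4⟩ := big p hp.le
    rcases Nat.lt_or_ge p K with hpK | hpK
    · -- low windows
      refine F_ab g1 g2 g3 g4 ?_ ?_
      · refine window_congr (m := K + n - 1) ?_ (by rw [← hndef]; omega)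
        rw [hadef, hbdef, mod_low _ _ _ _ (by omega), mod_low _ _ _ _ (by omega), m1]
      · refine window_congr (m := K + n - 1) ?_ (by rw [← hndef]; omega)
        rw [hadef', hbdef', mod_low _ _ _ _ (by omega), mod_low _ _ _ _ (by omega), m2]
    rcases Nat.lt_or_ge p (e - n) with hpe | hpe
    · -- middle windows
      have mid : ∀ Y Z : ℕ, ((2 ^ e * Y + Z) / 2 ^ p) % 2 ^ n = (Z / 2 ^ p) % 2 ^ n := by
        intro Y Z
        exact window_congr (m := p + n) (mod_low _ _ _ _ (by omega)) le_rfl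
      refine F_aa' g1 g2 g3 g4 ?_ ?_
      · rw [hadef, hadef', ← hndef, mid, mid, div_split Za p K hpK, div_split Za' p K hpK, t1]
      · rw [hbdef, hbdef', ← hndef, mid, mid, div_split Zb p K hpK, div_split Zb' p K hpK, t2]
    · -- upper windows
      have up : ∀ U U' R Z Z' : ℕ, U % 2 ^ (n - 1) = U' % 2 ^ (n - 1) → Z / 2 ^ (e - n) = q →
          Z' / 2 ^ (e - n) = q →
          ((2 ^ e * (2 ^ K * U + R) + Z) / 2 ^ p) % 2 ^ n =
            ((2 ^ e * (2 ^ K * U' + R) + Z') / 2 ^ p) % 2 ^ n := by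
        intro U U' R Z Z' hU hZ hZ'
        rw [div_split _ p (e - n) hpe, div_split (2 ^ e * (2 ^ K * U' + R) + Z') p (e - n) hpe,
          div_high e (e - n) _ Z (by omega), div_high e (e - n) _ Z' (by omega), hZ, hZ']
        refine window_congr (m := (e - (e - n)) + (K + (n - 1))) ?_ (by omega)
        exact congr_affine (congr_affine hU)
      have hUU : u % 2 ^ (n - 1) = u' % 2 ^ (n - 1) := by
        have h1 : u % 2 ^ (n - 1) = r₁ % 2 ^ (n - 1) := by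
          rw [← hur, Nat.mod_mod_of_dvd u (pow_dvd_pow 2 (by omega))]
        have h2 : u' % 2 ^ (n - 1) = r₂ % 2 ^ (n - 1) := by
          rw [← hur', Nat.mod_mod_of_dvd u' (pow_dvd_pow 2 (by omega))]
        rw [h1, h2, hr]
      have hUU' : (u + 1) % 2 ^ (n - 1) = (u' + 1) % 2 ^ (n - 1) :=
        Nat.ModEq.add_right 1 hUU
      exact F_ab g1 g2 g3 g4 (up _ _ _ _ _ hUU qa qb) (up _ _ _ _ _ hUU' qa' qb')
  · -- special windows
    have half : ∀ x U : ℕ, x / 2 ^ (e + K) = U → x / 2 ^ (e + K + 1) = U / 2 := by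
      intro x U h
      rw [pow_succ, ← Nat.div_div_eq_div_mul, h]
    unfold F
    rw [half _ _ Qa, half _ _ Qa', half _ _ Qb, half _ _ Qb', Qa, Qa', Qb, Qb']
    have succ_mod : ∀ U r : ℕ, U % 2 ^ (n + 1) = r → r + 1 < 2 ^ (n + 1) →
        (U + 1) % 2 ^ (n + 1) = r + 1 := by
      intro U r h h'
      rw [Nat.add_mod, h, Nat.mod_eq_of_lt (show 1 < 2 ^ (n + 1) by omega), Nat.mod_eq_of_lt h']
    exact hsp u (u + 1) u' (u' + 1) (by omega) (by omega) (by omega) (by omega) hur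
      (succ_mod _ _ hur hlt) hur' (succ_mod _ _ hur' hlt')
  · have quarter : ∀ x U : ℕ, x / 2 ^ (e + K) = U → x / 2 ^ (e + K + 2) = U / 4 := by
      intro x U h
      rw [pow_add, ← Nat.div_div_eq_div_mul, h]; norm_num
    rw [quarter _ _ Qa, quarter _ _ Qa']
    obtain ⟨k, hk⟩ : ∃ k, u = 2 ^ (n + 1) * k + r₁ := ⟨u / 2 ^ (n + 1), by rw [← hur, Nat.div_add_mod]⟩
    have h4 : 2 ^ (n + 1) = 4 * 2 ^ (n - 1) := by
      rw [show n + 1 = 2 + (n - 1) by omega, pow_add]; norm_num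
    rw [hk, h4, mul_assoc]
    omega
  · have quarter : ∀ x U : ℕ, x / 2 ^ (e + K) = U → x / 2 ^ (e + K + 2) = U / 4 := by
      intro x U h
      rw [pow_add, ← Nat.div_div_eq_div_mul, h]; norm_num
    rw [quarter _ _ Qb, quarter _ _ Qb']
    obtain ⟨k, hk⟩ : ∃ k, u' = 2 ^ (n + 1) * k + r₂ :=
      ⟨u' / 2 ^ (n + 1), by rw [← hur', Nat.div_add_mod]⟩
    have h4 : 2 ^ (n + 1) = 4 * 2 ^ (n - 1) := by
      rw [show n + 1 = 2 + (n - 1) by omega, pow_add]; norm_num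
    rw [hk, h4, mul_assoc]
    omega

/-- The long carry is in the lower part. -/
theorem caseA {v : List Bool} (hv : v ≠ []) {r₁ r₂ : ℕ}
    (hr : r₁ % 2 ^ (v.length - 1) = r₂ % 2 ^ (v.length - 1))
    (hr4 : r₁ / 4 = (r₁ + 1) / 4) (hr4' : r₂ / 4 = (r₂ + 1) / 4)
    (hlt : r₁ + 1 < 2 ^ (v.length + 1)) (hlt' : r₂ + 1 < 2 ^ (v.length + 1))
    (hsp : ∀ x x' y y' : ℕ, 2 ≤ x → 2 ≤ x' → 2 ≤ y → 2 ≤ y' →
        x % 2 ^ (v.length + 1) = r₁ → x' % 2 ^ (v.length + 1) = r₁ + 1 →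
        y % 2 ^ (v.length + 1) = r₂ → y' % 2 ^ (v.length + 1) = r₂ + 1 →
        (wv v x + wv v x' + wv v y + wv v y') +
          (wv v (x / 2) + wv v (x' / 2) + wv v (y / 2) + wv v (y' / 2)) = 1)
    {e K u u' ρ ρ' μ Ya Ya' Yb Yb' q : ℕ}
    (he : K + 2 * v.length + 2 ≤ e) (hK : v.length ≤ K)
    (hur : u % 2 ^ (v.length + 1) = r₁) (hur' : u' % 2 ^ (v.length + 1) = r₂)
    (hρ : ρ < 2 ^ K) (hρ' : ρ' < 2 ^ K) (hμ : μ < 2 ^ v.length)
    (hYa : 2 ^ K ≤ Ya) (hYa' : 2 ^ K ≤ Ya') (hYb : 2 ^ K ≤ Yb) (hYb' : 2 ^ K ≤ Yb')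
    (ha : 2 ^ v.length * (2 ^ K * u + ρ) + μ < 2 ^ e)
    (ha' : 2 ^ v.length * (2 ^ K * (u + 1) + ρ') + μ < 2 ^ e)
    (hb : 2 ^ v.length * (2 ^ K * u' + ρ) + μ < 2 ^ e)
    (hb' : 2 ^ v.length * (2 ^ K * (u' + 1) + ρ') + μ < 2 ^ e)
    (qa : (2 ^ v.length * (2 ^ K * u + ρ) + μ) / 2 ^ (e - v.length) = q)
    (qa' : (2 ^ v.length * (2 ^ K * (u + 1) + ρ') + μ) / 2 ^ (e - v.length) = q)
    (qb : (2 ^ v.length * (2 ^ K * u' + ρ) + μ) / 2 ^ (e - v.length) = q)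
    (qb' : (2 ^ v.length * (2 ^ K * (u' + 1) + ρ') + μ) / 2 ^ (e - v.length) = q)
    (m1 : Ya % 2 ^ K = Yb % 2 ^ K) (m2 : Ya' % 2 ^ K = Yb' % 2 ^ K)
    (t1 : Ya / 2 ^ (K - v.length) = Ya' / 2 ^ (K - v.length))
    (t2 : Yb / 2 ^ (K - v.length) = Yb' / 2 ^ (K - v.length)) :
    cv v (2 ^ e * Ya + (2 ^ v.length * (2 ^ K * u + ρ) + μ)) +
      cv v (2 ^ e * Ya' + (2 ^ v.length * (2 ^ K * (u + 1) + ρ') + μ)) +
      cv v (2 ^ e * Yb + (2 ^ v.length * (2 ^ K * u' + ρ) + μ)) +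
      cv v (2 ^ e * Yb' + (2 ^ v.length * (2 ^ K * (u' + 1) + ρ') + μ)) = 1 := by
  have hn : 1 ≤ v.length := List.length_pos_iff.2 hv
  set n := v.length with hndef
  -- quotient of the lower part at n + K
  have quoZ : ∀ U R : ℕ, R < 2 ^ K → (2 ^ n * (2 ^ K * U + R) + μ) / 2 ^ (n + K) = U := by
    intro U R hR
    rw [pow_add, ← Nat.div_div_eq_div_mul, div_of_lt _ _ _ hμ, div_of_lt _ _ _ hR]
  have Ra := quoZ u ρ hρ
  have Ra' := quoZ (u + 1) ρ' hρ'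
  have Rb := quoZ u' ρ hρ
  have Rb' := quoZ (u' + 1) ρ' hρ'
  set Za := 2 ^ n * (2 ^ K * u + ρ) + μ with hZa
  set Za' := 2 ^ n * (2 ^ K * (u + 1) + ρ') + μ with hZa'
  set Zb := 2 ^ n * (2 ^ K * u' + ρ) + μ with hZb
  set Zb' := 2 ^ n * (2 ^ K * (u' + 1) + ρ') + μ with hZb'
  have big : ∀ (Y Z p : ℕ), 2 ^ K ≤ Y → p ≤ e + K → 2 ^ p ≤ 2 ^ e * Y + Z := by
    intro Y Z p hY hp
    calc 2 ^ p ≤ 2 ^ (e + K) := Nat.pow_le_pow_right (by norm_num) hp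
      _ = 2 ^ e * 2 ^ K := pow_add _ _ _
      _ ≤ 2 ^ e * Y := Nat.mul_le_mul_left _ hY
      _ ≤ _ := Nat.le_add_right _ _
  have hUU : u % 2 ^ (n - 1) = u' % 2 ^ (n - 1) := by
    have h1 : u % 2 ^ (n - 1) = r₁ % 2 ^ (n - 1) := by
      rw [← hur, Nat.mod_mod_of_dvd u (pow_dvd_pow 2 (by omega))]
    have h2 : u' % 2 ^ (n - 1) = r₂ % 2 ^ (n - 1) := by
      rw [← hur', Nat.mod_mod_of_dvd u' (pow_dvd_pow 2 (by omega))]
    rw [h1, h2, hr]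
  have hUU' : (u + 1) % 2 ^ (n - 1) = (u' + 1) % 2 ^ (n - 1) := Nat.ModEq.add_right 1 hUU
  have quarter : ∀ U r : ℕ, U % 2 ^ (n + 1) = r → r / 4 = (r + 1) / 4 → U / 4 = (U + 1) / 4 := by
    intro U r h h'
    obtain ⟨k, hk⟩ : ∃ k, U = 2 ^ (n + 1) * k + r := ⟨U / 2 ^ (n + 1), by rw [← h, Nat.div_add_mod]⟩
    have h4 : 2 ^ (n + 1) = 4 * 2 ^ (n - 1) := by
      rw [show n + 1 = 2 + (n - 1) by omega, pow_add]; norm_num
    rw [hk, h4, mul_assoc]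
    omega
  refine quad hv (P := n + K) (Q := e + K - n) (by omega) ?_ ?_ ?_ ?_ ?_
  · intro p hp
    refine F_ab (big _ _ _ hYa (by omega)) (big _ _ _ hYa' (by omega)) (big _ _ _ hYb (by omega))
      (big _ _ _ hYb' (by omega)) ?_ ?_
    · refine window_congr (m := n + (K + (n - 1))) ?_ (by rw [← hndef]; omega)
      rw [mod_low e _ Ya Za (by omega), mod_low e _ Yb Zb (by omega)]
      exact congr_affine (congr_affine hUU)
    · refine window_congr (m := n + (K + (n - 1))) ?_ (by rw [← hndef]; omega)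
      rw [mod_low e _ Ya' Za' (by omega), mod_low e _ Yb' Zb' (by omega)]
      exact congr_affine (congr_affine hUU')
  · -- special windows
    have half : ∀ x : ℕ, x / 2 ^ (n + K + 1) = x / 2 ^ (n + K) / 2 := by
      intro x
      rw [pow_succ, ← Nat.div_div_eq_div_mul]
    have hres : ∀ Y Z U r : ℕ, Z / 2 ^ (n + K) = U → U % 2 ^ (n + 1) = r →
        ((2 ^ e * Y + Z) / 2 ^ (n + K)) % 2 ^ (n + 1) = r := by
      intro Y Z U r h h'
      rw [div_high _ _ _ _ (by omega), mod_low _ _ _ _ (by omega), h, h']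
    have hge : ∀ Y Z : ℕ, 2 ^ K ≤ Y → 2 ≤ (2 ^ e * Y + Z) / 2 ^ (n + K) := by
      intro Y Z hY
      rw [Nat.le_div_iff_mul_le (by positivity)]
      calc 2 * 2 ^ (n + K) = 2 ^ (n + K + 1) := by rw [pow_succ]; ring
        _ ≤ _ := big _ _ _ hY (by omega)
    have succ_mod : ∀ U r : ℕ, U % 2 ^ (n + 1) = r → r + 1 < 2 ^ (n + 1) →
        (U + 1) % 2 ^ (n + 1) = r + 1 := by
      intro U r h h'
      rw [Nat.add_mod, h, Nat.mod_eq_of_lt (show 1 < 2 ^ (n + 1) by omega), Nat.mod_eq_of_lt h']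
    unfold F
    rw [half, half, half, half]
    exact hsp _ _ _ _ (hge _ _ hYa) (hge _ _ hYa') (hge _ _ hYb) (hge _ _ hYb')
      (hres _ _ _ _ Ra hur) (hres _ _ _ _ Ra' (succ_mod _ _ hur hlt))
      (hres _ _ _ _ Rb hur') (hres _ _ _ _ Rb' (succ_mod _ _ hur' hlt'))
  · intro p hp1 hp2
    rcases Nat.lt_or_ge p (e - n) with hpe | hpe
    · have mid : ∀ Y Z : ℕ, ((2 ^ e * Y + Z) / 2 ^ p) % 2 ^ n = (Z / 2 ^ p) % 2 ^ n := by
        intro Y Z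
        exact window_congr (m := p + n) (mod_low _ _ _ _ (by omega)) le_rfl
      have hq4 : ∀ Z U : ℕ, Z / 2 ^ (n + K) = U → Z / 2 ^ p = U / 4 / 2 ^ (p - (n + K + 2)) := by
        intro Z U h
        rw [div_split Z p (n + K + 2) hp1]
        congr 1
        rw [pow_add, ← Nat.div_div_eq_div_mul, h]; norm_num
      refine F_aa' (big _ _ _ hYa (by omega)) (big _ _ _ hYa' (by omega))
        (big _ _ _ hYb (by omega)) (big _ _ _ hYb' (by omega)) ?_ ?_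
      · rw [← hndef, mid, mid, hq4 _ _ Ra, hq4 _ _ Ra', quarter _ _ hur hr4]
      · rw [← hndef, mid, mid, hq4 _ _ Rb, hq4 _ _ Rb', quarter _ _ hur' hr4']
    · have up : ∀ Y Y' Z Z' : ℕ, Y % 2 ^ K = Y' % 2 ^ K → Z / 2 ^ (e - n) = q →
          Z' / 2 ^ (e - n) = q →
          ((2 ^ e * Y + Z) / 2 ^ p) % 2 ^ n = ((2 ^ e * Y' + Z') / 2 ^ p) % 2 ^ n := by
        intro Y Y' Z Z' hY hZ hZ'
        rw [div_split _ p (e - n) hpe, div_split (2 ^ e * Y' + Z') p (e - n) hpe,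
          div_high e (e - n) _ Z (by omega), div_high e (e - n) _ Z' (by omega), hZ, hZ']
        refine window_congr (m := (e - (e - n)) + K) ?_ (by omega)
        exact congr_affine hY
      exact F_ab (big _ _ _ hYa (by omega)) (big _ _ _ hYa' (by omega)) (big _ _ _ hYb (by omega))
        (big _ _ _ hYb' (by omega)) (up _ _ _ _ m1 qa qb) (up _ _ _ _ m2 qa' qb')
  · have top : ∀ Y Z : ℕ, Z < 2 ^ e → (2 ^ e * Y + Z) / 2 ^ (e + K - n) = Y / 2 ^ (K - n) := by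
      intro Y Z hZ
      rw [show e + K - n = e + (K - n) by omega, pow_add, ← Nat.div_div_eq_div_mul,
        div_of_lt _ _ _ hZ]
    rw [top _ _ ha, top _ _ ha', t1]
  · have top : ∀ Y Z : ℕ, Z < 2 ^ e → (2 ^ e * Y + Z) / 2 ^ (e + K - n) = Y / 2 ^ (K - n) := by
      intro Y Z hZ
      rw [show e + K - n = e + (K - n) by omega, pow_add, ← Nat.div_div_eq_div_mul,
        div_of_lt _ _ _ hZ]
    rw [top _ _ hb, top _ _ hb', t2]

end Pool.Agent.Helper73.Reg
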