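import Mathlib

/-!
Pattern-count colourings and monochromatic arithmetic progressions.
-/

namespace Pool.Agent.Helper73.Reg

/-- The canonical binary expansion of `n`, most significant digit first (`true` is the digit `1`);
`0` has the empty expansion. -/
def binExp (n : ℕ) : List Bool := (Nat.bits n).reverse

/-- The number of occurrences (overlaps allowed) of `v` as a factor of `w`: the number of initial
segments of `w` that end with `v`. -/
def occ (v w : List Bool) : ℕ := w.inits.countP (fun s => v.isSuffixOf s)

/-- The number of zeros put in front of the expansion: if `v` contains a `1`, the number of zeros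
with which `v` starts; otherwise none. -/
def padLen (v : List Bool) : ℕ := if true ∈ v then (v.takeWhile (fun b => !b)).length else 0

/-- `e_v(n)`. -/
def ev (v : List Bool) (n : ℕ) : ℕ := occ v (List.replicate (padLen v) false ++ binExp n)

/-- The set whose infimum is `A_v(n,d)`. -/
def changes (v : List Bool) (n d : ℕ) : Set ℕ := {l | 1 ≤ l ∧ ¬ ev v (n + l * d) ≡ ev v n [MOD 2]}

/-- `A_v(n,d) = inf {l ≥ 1 : e_v(n+ld) ≢ e_v(n) mod 2}`. -/
noncomputable def lenAP (v : List Bool) (n d : ℕ) : ℕ := sInf (changes v n d)

/-- `A_v(d) = sup_n A_v(n,d)`. -/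
noncomputable def maxAP (v : List Bool) (d : ℕ) : ℕ := sSup (Set.range fun n => lenAP v n d)

/-- A sequence of integers is `2`-regular if the `ℤ`-module spanned by its `2`-kernel is finitely
generated. -/
def TwoRegular (a : ℕ → ℤ) : Prop :=
  (Submodule.span ℤ {b : ℕ → ℤ | ∃ e r : ℕ, r < 2 ^ e ∧ b = fun d => a (2 ^ e * d + r)}).FG

end Pool.Agent.Helper73.Reg
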