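import Pool.Agent.Helper73.Reg.AP

namespace Pool.Agent.Helper73.Reg

theorem cv_eq_iff {v : List Bool} {x y : ℕ} : cv v x = cv v y ↔ ev v x ≡ ev v y [MOD 2] := by
  unfold cv
  exact ZMod.natCast_eq_natCast_iff _ _ _

theorem mem_changes {v : List Bool} {s d l : ℕ} :
    l ∈ changes v s d ↔ 1 ≤ l ∧ cv v (s + l * d) ≠ cv v s := by
  unfold changes
  rw [Set.mem_ofPred_eq, Ne, cv_eq_iff]

/-- from a bound on monochromatic runs to a bound on `lenAP` -/
theorem lenAP_le_of {v : List Bool} {s d C : ℕ} (h : ∃ l ≤ C, cv v (s + l * d) ≠ cv v s) :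
    (changes v s d).Nonempty ∧ lenAP v s d ≤ C := by
  obtain ⟨l, hl, hne⟩ := h
  have hmem : l ∈ changes v s d := by
    rw [mem_changes]
    refine ⟨?_, hne⟩
    by_contra h0
    have : l = 0 := by omega
    subst this
    simp at hne
  exact ⟨⟨l, hmem⟩, (Nat.sInf_le hmem).trans hl⟩

/-- off-diagonal bound -/
theorem offdiag_bound {v : List Bool} (hv : v ≠ []) {D D' : ℕ} (hD : Odd D) (hD' : Odd D')
    (h : 2 ^ v.length * D < D' ∨ 2 ^ v.length * D' < D) :
    ∃ C e₀, ∀ e ≥ e₀, ∀ s, ∃ l ≤ C, cv v (s + l * (2 ^ e * D + 2 ^ v.length * D')) ≠ cv v s := by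
  set n := v.length with hn
  set K := n + D + D' with hK
  set H := 2 ^ K * (2 ^ (n + 1) + 6) with hH
  refine ⟨2 * H, K + 2 * n + 2 + (2 * H) * (2 ^ n * D'), fun e he s => ?_⟩
  by_contra hcon
  push Not at hcon
  have hpw : ∀ m : ℕ, m ≤ 2 ^ m := fun m => Nat.lt_two_pow_self.le
  have hbound : (2 * H) * (2 ^ n * D') ≤ 2 ^ (e - n) := by
    calc (2 * H) * (2 ^ n * D') ≤ 2 ^ ((2 * H) * (2 ^ n * D')) := hpw _
      _ ≤ 2 ^ (e - n) := Nat.pow_le_pow_right (by norm_num) (by omega)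
  obtain ⟨l₀, Y, Z, h0, hb⟩ := sub_block (n := n) (e := e) (D := D) (D' := D') (H := H) (s := s)
    (by omega) hbound
  have hmono : ∀ l ≤ H, cv v (2 ^ e * (Y + l * D) + (Z + l * (2 ^ n * D'))) = cv v s := by
    intro l hl
    rw [← (hb l hl).1]
    exact hcon _ (by omega)
  have hKD : D ≤ 2 ^ (K - n) := (hpw D).trans (Nat.pow_le_pow_right (by norm_num) (by omega))
  have hKD' : D' ≤ 2 ^ (K - n) := (hpw D').trans (Nat.pow_le_pow_right (by norm_num) (by omega))
  have hKK : 2 ^ (K - n) ≤ 2 ^ K := Nat.pow_le_pow_right (by norm_num) (by omega)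
  rcases h with h | h
  · exact noAP_A hv hD hD' h (by omega) (hKD'.trans hKK) hKD (by omega)
      (fun l hl => (hb l hl).2) _ hmono
  · exact noAP_B hv hD (Or.inr hD') h (by omega) (hKD.trans hKK) hKD' (by omega)
      (fun l hl => (hb l hl).2) _ hmono

/-- finiteness of the length of monochromatic progressions -/
theorem finite_bound {v : List Bool} (hv : v ≠ []) {d : ℕ} (hd : 1 ≤ d) :
    ∃ C, ∀ s, ∃ l ≤ C, cv v (s + l * d) ≠ cv v s := by
  obtain ⟨t, D, hD, rfl⟩ := Nat.exists_eq_two_pow_mul_odd (n := d) (by omega)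
  set n := v.length with hn
  set K := n + D with hK
  set H := 2 ^ K * (2 ^ (n + 1) + 6) with hH
  refine ⟨H * 2 ^ (K + n), fun s => ?_⟩
  by_contra hcon
  push Not at hcon
  have hpw : ∀ m : ℕ, m ≤ 2 ^ m := fun m => Nat.lt_two_pow_self.le
  set e := t + (K + n) with he
  have hKD : D ≤ 2 ^ K := (hpw D).trans (Nat.pow_le_pow_right (by norm_num) (by omega))
  refine noAP_B hv (K := K) (D := D) (D' := 0) (e := e) (Y := s / 2 ^ e) (Z := s % 2 ^ e) hD
    (Or.inl rfl) (by rw [mul_zero]; exact hD.pos) (by omega) hKD (Nat.zero_le _) (by omega) ?_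
    (cv v s) ?_
  · intro l _
    simp only [mul_zero, add_zero, and_true]
    exact Nat.mod_lt _ (by positivity)
  · intro l hl
    have h1 : 2 ^ e * (s / 2 ^ e + l * D) + (s % 2 ^ e + l * (2 ^ v.length * 0)) =
        s + (l * 2 ^ (K + n)) * (2 ^ t * D) := by
      conv_rhs => rw [← Nat.div_add_mod s (2 ^ e)]
      rw [he, pow_add]; ring
    rw [h1]
    exact hcon _ (Nat.mul_le_mul_right _ hl)

theorem changes_nonempty {v : List Bool} (hv : v ≠ []) (s : ℕ) {d : ℕ} (hd : 1 ≤ d) :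
    (changes v s d).Nonempty := by
  obtain ⟨C, hC⟩ := finite_bound hv hd
  exact (lenAP_le_of (hC s)).1

theorem bddAbove_lenAP {v : List Bool} (hv : v ≠ []) {d : ℕ} (hd : 1 ≤ d) :
    BddAbove (Set.range fun s => lenAP v s d) := by
  obtain ⟨C, hC⟩ := finite_bound hv hd
  refine ⟨C, ?_⟩
  rintro _ ⟨s, rfl⟩
  exact (lenAP_le_of (hC s)).2

theorem le_maxAP {v : List Bool} (hv : v ≠ []) (s : ℕ) {d : ℕ} (hd : 1 ≤ d) :
    lenAP v s d ≤ maxAP v d :=
  le_csSup (bddAbove_lenAP hv hd) ⟨s, rfl⟩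

theorem maxAP_le {v : List Bool} {d C : ℕ}
    (h : ∀ s, ∃ l ≤ C, cv v (s + l * d) ≠ cv v s) : maxAP v d ≤ C := by
  refine csSup_le (Set.range_nonempty _) ?_
  rintro _ ⟨s, rfl⟩
  exact (lenAP_le_of (h s)).2

/-- low windows of `x` -/
def T (v : List Bool) (k x : ℕ) : ZMod 2 :=
  ∑ p ∈ Finset.range k, if (x / 2 ^ p) % 2 ^ v.length = val v then 1 else 0

theorem wv_eq_of_ne {v : List Bool} {x y : ℕ} (hx : x ≠ 0)
    (h : x % 2 ^ v.length = y % 2 ^ v.length) :
    wv v x = if y % 2 ^ v.length = val v then 1 else 0 := by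
  simp [wv, win, hx, h]

/-- two-block decomposition -/
theorem cv_two_block {v : List Bool} (hv : v ≠ []) {e Y x : ℕ} (he : v.length ≤ e)
    (hx : x < 2 ^ (e - v.length)) (hY : Y ≠ 0) :
    cv v (2 ^ e * Y + x) = cv v (2 ^ v.length * Y) + T v (e - v.length) x := by
  set n := v.length with hn
  have hlt : x < 2 ^ e := hx.trans_le (Nat.pow_le_pow_right (by norm_num) (by omega))
  rw [cv_unfold hv (2 ^ e * Y + x) (e - n), cv_unfold hv (2 ^ n * Y) 0]
  have h1 : (2 ^ e * Y + x) / 2 ^ (e - n) = 2 ^ n * Y := by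
    rw [div_high e (e - n) _ x (by omega), Nat.div_eq_of_lt hx, add_zero,
      show e - (e - n) = n by omega]
  rw [h1]
  simp only [pow_zero, Nat.div_one, Finset.range_zero, Finset.sum_empty, add_zero]
  congr 1
  unfold T
  refine Finset.sum_congr rfl fun p hp => ?_
  rw [Finset.mem_range] at hp
  refine wv_eq_of_ne ?_ ?_
  · apply div_ne_zero_of_le
    calc 2 ^ p ≤ 2 ^ e := Nat.pow_le_pow_right (by norm_num) (by omega)
      _ ≤ 2 ^ e * Y := Nat.le_mul_of_pos_right _ (Nat.pos_of_ne_zero hY)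
      _ ≤ _ := Nat.le_add_right _ _
  · exact window_congr (m := p + n) (mod_low _ _ _ _ (by omega)) le_rfl

/-- diagonal: a long monochromatic progression starting at a large power of two -/
theorem diag_const {v : List Bool} (hv : v ≠ []) {e D l : ℕ} (he : 2 * v.length + 1 ≤ e)
    (hl : 2 ^ v.length * (l * D) < 2 ^ (e - v.length)) :
    cv v (2 ^ e * 2 ^ (e - v.length - 1) + l * (2 ^ e * D + 2 ^ v.length * D)) =
      cv v (2 ^ (v.length - 1)) := by
  have hn1 : 1 ≤ v.length := List.length_pos_iff.2 hv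
  set n := v.length with hn
  have h0 : 2 ^ e * 2 ^ (e - n - 1) + l * (2 ^ e * D + 2 ^ n * D) =
      2 ^ e * (2 ^ (e - n - 1) + l * D) + 2 ^ n * (l * D) := by ring
  rw [h0, cv_two_block hv (by omega) (by rw [← hn]; exact hl) (by positivity)]
  have h1 : 2 ^ v.length * (2 ^ (e - n - 1) + l * D) = 2 ^ (e - 1) * 1 + 2 ^ n * (l * D) := by
    rw [← hn, mul_add, mul_one, ← pow_add]; congr 2; omega
  rw [h1, cv_unfold hv (2 ^ (e - 1) * 1 + 2 ^ n * (l * D)) (e - n)]
  have h2 : (2 ^ (e - 1) * 1 + 2 ^ n * (l * D)) / 2 ^ (e - n) = 2 ^ (n - 1) := by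
    rw [div_high (e - 1) (e - n) _ _ (by omega), Nat.div_eq_of_lt hl, add_zero, mul_one,
      show e - 1 - (e - n) = n - 1 by omega]
  rw [h2]
  have h3 : ∑ p ∈ Finset.range (e - n), wv v ((2 ^ (e - 1) * 1 + 2 ^ n * (l * D)) / 2 ^ p) =
      T v (e - n) (2 ^ n * (l * D)) := by
    unfold T
    refine Finset.sum_congr rfl fun p hp => ?_
    rw [Finset.mem_range] at hp
    refine wv_eq_of_ne ?_ ?_
    · apply div_ne_zero_of_le
      calc 2 ^ p ≤ 2 ^ (e - 1) := Nat.pow_le_pow_right (by norm_num) (by omega)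
        _ ≤ _ := by omega
    · exact window_congr (m := p + n) (mod_low _ _ _ _ (by omega)) le_rfl
  rw [h3, add_assoc, z2_add_self, add_zero]

/-- diagonal for progressions starting at zero, when the pattern contains a one -/
theorem diag_zero {v : List Bool} (h1 : true ∈ v) {e D l : ℕ} (he : v.length ≤ e)
    (hl : 2 ^ v.length * (l * D) < 2 ^ (e - v.length)) :
    cv v (l * (2 ^ e * D + 2 ^ v.length * D)) = 0 := by
  have hv : v ≠ [] := by rintro rfl; simp at h1
  have hV : val v ≠ 0 := fun h => (val_eq_zero_iff v).1 h h1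
  set n := v.length with hn
  by_cases h0 : l * D = 0
  · have : l * (2 ^ e * D + 2 ^ n * D) = 0 := by
      have : l * (2 ^ e * D + 2 ^ n * D) = (l * D) * (2 ^ e + 2 ^ n) := by ring
      rw [this, h0, zero_mul]
    rw [this, cv_zero hv]
  · have h2 : l * (2 ^ e * D + 2 ^ n * D) = 2 ^ e * (l * D) + 2 ^ n * (l * D) := by ring
    rw [h2, cv_two_block hv (by omega) (by rw [← hn]; exact hl) h0, ← hn]
    have h3 : cv v (2 ^ n * (l * D)) = T v (e - n) (2 ^ n * (l * D)) := by
      rw [cv_unfold hv (2 ^ n * (l * D)) (e - n), Nat.div_eq_of_lt hl, cv_zero hv, zero_add]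
      unfold T
      refine Finset.sum_congr rfl fun p _ => ?_
      by_cases h4 : 2 ^ n * (l * D) / 2 ^ p = 0
      · rw [h4]
        simp [wv, win, hV.symm]
      · exact wv_eq_of_ne h4 rfl
    rw [h3, z2_add_self]

/-- the criterion for non-regularity -/
theorem not_twoRegular (a : ℕ → ℤ)
    (h : ∀ m : ℕ, ∃ D r : Fin m → ℕ, ∃ C : ℤ, ∀ B : ℤ, ∃ e, (∀ j, r j < 2 ^ e) ∧
      (∀ i, B ≤ a (2 ^ e * D i + r i)) ∧ ∀ i j, i ≠ j → |a (2 ^ e * D i + r j)| ≤ C) :
    ¬ TwoRegular a := by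
  intro hfg
  unfold TwoRegular at hfg
  set M := Submodule.span ℤ {b : ℕ → ℤ | ∃ e r : ℕ, r < 2 ^ e ∧ b = fun d => a (2 ^ e * d + r)}
    with hM
  have hfin : Module.Finite ℤ M := Module.Finite.iff_fg.2 hfg
  obtain ⟨m, hm⟩ : ∃ m, m = Module.finrank ℤ M + 1 := ⟨_, rfl⟩
  obtain ⟨D, r, C, hC⟩ := h m
  obtain ⟨e, hr, hdiag, hoff⟩ := hC (m * |C| + 1)
  let k : Fin m → M := fun j => ⟨fun d => a (2 ^ e * d + r j),
    Submodule.subset_span ⟨e, r j, hr j, rfl⟩⟩
  have hli : LinearIndependent ℤ k := by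
    rw [Fintype.linearIndependent_iff]
    intro c hc
    by_contra hne
    push Not at hne
    obtain ⟨i₀, hi₀⟩ := hne
    obtain ⟨i, -, hi⟩ := Finset.exists_max_image Finset.univ (fun i => |c i|)
      ⟨i₀, Finset.mem_univ _⟩
    have hci : 0 < |c i| := lt_of_lt_of_le (abs_pos.2 hi₀) (hi i₀ (Finset.mem_univ _))
    have hev : ∑ j, c j * a (2 ^ e * D i + r j) = 0 := by
      have h1 := congrArg (fun x : M => (x : ℕ → ℤ) (D i)) hc
      simpa [k, Finset.sum_apply] using h1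
    rw [← Finset.add_sum_erase _ _ (Finset.mem_univ i)] at hev
    have h2 : |c i * a (2 ^ e * D i + r i)| ≤ ∑ j ∈ Finset.univ.erase i, |c i| * |C| := by
      have h3 : c i * a (2 ^ e * D i + r i) =
          -∑ j ∈ Finset.univ.erase i, c j * a (2 ^ e * D i + r j) := by linarith
      rw [h3, abs_neg]
      refine (Finset.abs_sum_le_sum_abs _ _).trans (Finset.sum_le_sum fun j hj => ?_)
      rw [abs_mul]
      have hji : i ≠ j := (Finset.ne_of_mem_erase hj).symm
      exact mul_le_mul (hi j (Finset.mem_univ _)) ((hoff i j hji).trans (le_abs_self C))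
        (abs_nonneg _) (abs_nonneg _)
    rw [Finset.sum_const, nsmul_eq_mul, Finset.card_erase_of_mem (Finset.mem_univ i),
      Finset.card_univ, Fintype.card_fin, abs_mul] at h2
    have h4 : (m : ℤ) * |C| + 1 ≤ |a (2 ^ e * D i + r i)| := (hdiag i).trans (le_abs_self _)
    have h5 : |c i| * (m * |C| + 1) ≤ |c i| * |a (2 ^ e * D i + r i)| :=
      mul_le_mul_of_nonneg_left h4 (abs_nonneg _)
    have h6 : ((m - 1 : ℕ) : ℤ) * (|c i| * |C|) ≤ (m : ℤ) * (|c i| * |C|) := by
      apply mul_le_mul_of_nonneg_right _ (by positivity)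
      exact_mod_cast Nat.sub_le m 1
    nlinarith
  have := hli.fintype_card_le_finrank
  rw [Fintype.card_fin] at this
  omega

/-- the family of odd numbers -/
def fam (n i : ℕ) : ℕ := 2 ^ ((n + 2) * (i + 1)) + 1

theorem odd_fam (n i : ℕ) : Odd (fam n i) := by
  refine Even.add_one ?_
  rw [Nat.even_pow]
  exact ⟨even_two, by positivity⟩

theorem fam_lt (n : ℕ) {i j : ℕ} (h : i < j) : 2 ^ n * fam n i < fam n j := by
  unfold fam
  have h1 : (n + 2) * (i + 1) + (n + 2) ≤ (n + 2) * (j + 1) := by nlinarith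
  have h2 : 2 ^ ((n + 2) * (i + 1) + (n + 2)) ≤ 2 ^ ((n + 2) * (j + 1)) :=
    Nat.pow_le_pow_right (by norm_num) h1
  rw [pow_add, pow_add] at h2
  have h3 : 1 ≤ 2 ^ ((n + 2) * (i + 1)) := Nat.one_le_two_pow
  have h4 : 1 ≤ 2 ^ n := Nat.one_le_two_pow
  nlinarith

/-- common form of the non-regularity argument -/
theorem not_twoRegular_of_bounds {v : List Bool} (a : ℕ → ℕ)
    (hoff : ∀ D D', Odd D → Odd D' → (2 ^ v.length * D < D' ∨ 2 ^ v.length * D' < D) →
      ∃ C e₀, ∀ e ≥ e₀, a (2 ^ e * D + 2 ^ v.length * D') ≤ C)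
    (hdiag : ∀ D, Odd D → ∀ B : ℕ, ∃ e₀, ∀ e ≥ e₀, B ≤ a (2 ^ e * D + 2 ^ v.length * D)) :
    ¬ TwoRegular (fun d => if d = 0 then 0 else (a d : ℤ)) := by
  apply not_twoRegular
  intro m
  set n := v.length with hn
  have h1 : ∀ i j : Fin m, ∃ C e₀, i ≠ j → ∀ e ≥ e₀, a (2 ^ e * fam n i + 2 ^ n * fam n j) ≤ C := by
    intro i j
    by_cases hij : i = j
    · exact ⟨0, 0, fun h => absurd hij h⟩
    · have h2 : 2 ^ n * fam n i < fam n j ∨ 2 ^ n * fam n j < fam n i := by
        rcases lt_or_gt_of_ne (fun h => hij (Fin.ext h) : (i : ℕ) ≠ j) with h | h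
        · exact Or.inl (fam_lt n h)
        · exact Or.inr (fam_lt n h)
      obtain ⟨C, e₀, h3⟩ := hoff _ _ (odd_fam n i) (odd_fam n j) h2
      exact ⟨C, e₀, fun _ => h3⟩
  choose C e₀ hC using h1
  refine ⟨fun i => fam n i, fun j => 2 ^ n * fam n j,
    ((∑ i, ∑ j, C i j : ℕ) : ℤ), fun B => ?_⟩
  have h2 : ∀ i : Fin m, ∃ e₁, ∀ e ≥ e₁, B.toNat ≤ a (2 ^ e * fam n i + 2 ^ n * fam n i) :=
    fun i => hdiag _ (odd_fam n i) _
  choose e₁ he₁ using h2
  set e := (∑ i, ∑ j, e₀ i j) + (∑ i, e₁ i) + ∑ j : Fin m, 2 ^ n * fam n j with he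
  have hpos : ∀ i x : ℕ, 2 ^ e * fam n i + x ≠ 0 := by
    intro i x
    have : 0 < 2 ^ e * fam n i := by
      have := (odd_fam n i).pos
      positivity
    omega
  refine ⟨e, fun j => ?_, fun i => ?_, fun i j hij => ?_⟩
  · have h3 : 2 ^ n * fam n j ≤ ∑ j : Fin m, 2 ^ n * fam n j :=
      Finset.single_le_sum (f := fun j : Fin m => 2 ^ n * fam n j) (fun _ _ => Nat.zero_le _)
        (Finset.mem_univ j)
    calc 2 ^ n * fam n j < 2 ^ (2 ^ n * fam n j) := Nat.lt_two_pow_self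
      _ ≤ 2 ^ e := Nat.pow_le_pow_right (by norm_num) (by omega)
  · rw [if_neg (hpos _ _)]
    have h3 : e₁ i ≤ ∑ i, e₁ i :=
      Finset.single_le_sum (f := e₁) (fun _ _ => Nat.zero_le _) (Finset.mem_univ i)
    have h4 := he₁ i e (by omega)
    have h5 := Int.self_le_toNat B
    have h6 : ((B.toNat : ℕ) : ℤ) ≤ (a (2 ^ e * fam n i + 2 ^ n * fam n i) : ℤ) := by
      exact_mod_cast h4
    exact h5.trans h6
  · rw [if_neg (hpos _ _)]
    have h3 : e₀ i j ≤ ∑ i, ∑ j, e₀ i j :=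
      (Finset.single_le_sum (f := fun j => e₀ i j) (fun _ _ => Nat.zero_le _)
        (Finset.mem_univ j)).trans
        (Finset.single_le_sum (f := fun i => ∑ j, e₀ i j) (fun _ _ => Nat.zero_le _)
        (Finset.mem_univ i))
    have h3' : C i j ≤ ∑ i, ∑ j, C i j :=
      (Finset.single_le_sum (f := fun j => C i j) (fun _ _ => Nat.zero_le _)
        (Finset.mem_univ j)).trans
        (Finset.single_le_sum (f := fun i => ∑ j, C i j) (fun _ _ => Nat.zero_le _)
        (Finset.mem_univ i))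
    have h4 := hC i j hij e (by omega)
    rw [Nat.abs_cast]
    exact_mod_cast h4.trans h3'

/-- (b): never regular -/
theorem not_twoRegular_maxAP {v : List Bool} (hv : v ≠ []) :
    ¬ TwoRegular (fun d => if d = 0 then 0 else (maxAP v d : ℤ)) := by
  apply not_twoRegular_of_bounds (v := v) (maxAP v)
  · intro D D' hD hD' h
    obtain ⟨C, e₀, hC⟩ := offdiag_bound hv hD hD' h
    exact ⟨C, e₀, fun e he => maxAP_le (hC e he)⟩
  · intro D hD B
    refine ⟨2 * v.length + 1 + 2 ^ v.length * (B * D) + v.length, fun e he => ?_⟩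
    set d := 2 ^ e * D + 2 ^ v.length * D with hd
    have hdpos : 1 ≤ d := by
      have := hD.pos
      have : 0 < 2 ^ e * D := by positivity
      omega
    refine le_trans ?_ (le_maxAP hv (2 ^ e * 2 ^ (e - v.length - 1)) hdpos)
    refine le_csInf (changes_nonempty hv _ hdpos) fun l hl => ?_
    by_contra hlt
    push Not at hlt
    rw [mem_changes] at hl
    apply hl.2
    have hsmall : ∀ l ≤ B, 2 ^ v.length * (l * D) < 2 ^ (e - v.length) := by
      intro l hl
      calc 2 ^ v.length * (l * D) ≤ 2 ^ v.length * (B * D) := by gcongr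
        _ < 2 ^ (2 ^ v.length * (B * D)) := Nat.lt_two_pow_self
        _ ≤ _ := Nat.pow_le_pow_right (by norm_num) (by omega)
    have e1 := diag_const hv (e := e) (D := D) (l := l) (by omega) (hsmall l hlt.le)
    have e2 := diag_const hv (e := e) (D := D) (l := 0) (by omega) (hsmall 0 (by omega))
    rw [zero_mul, add_zero] at e2
    rw [e1, e2]

/-- (a) for patterns with a one -/
theorem not_twoRegular_lenAP {v : List Bool} (h1 : true ∈ v) :
    ¬ TwoRegular (fun d => if d = 0 then 0 else (lenAP v 0 d : ℤ)) := by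
  have hv : v ≠ [] := by rintro rfl; simp at h1
  apply not_twoRegular_of_bounds (v := v) (lenAP v 0)
  · intro D D' hD hD' h
    obtain ⟨C, e₀, hC⟩ := offdiag_bound hv hD hD' h
    exact ⟨C, e₀, fun e he => (lenAP_le_of (hC e he 0)).2⟩
  · intro D hD B
    refine ⟨2 * v.length + 1 + 2 ^ v.length * (B * D) + v.length, fun e he => ?_⟩
    set d := 2 ^ e * D + 2 ^ v.length * D with hd
    have hdpos : 1 ≤ d := by
      have := hD.pos
      have : 0 < 2 ^ e * D := by positivity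
      omega
    refine le_csInf (changes_nonempty hv _ hdpos) fun l hl => ?_
    by_contra hlt
    push Not at hlt
    rw [mem_changes] at hl
    apply hl.2
    have hsmall : 2 ^ v.length * (l * D) < 2 ^ (e - v.length) := by
      calc 2 ^ v.length * (l * D) ≤ 2 ^ v.length * (B * D) := by gcongr
        _ < 2 ^ (2 ^ v.length * (B * D)) := Nat.lt_two_pow_self
        _ ≤ _ := Nat.pow_le_pow_right (by norm_num) (by omega)
    rw [zero_add, cv_zero hv]
    exact diag_zero h1 (by omega) hsmall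

end Pool.Agent.Helper73.Reg
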