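import Pool.Agent.Helper73.Reg.Rec

namespace Pool.Agent.Helper73.Reg

/-- parity of the window function and of the pattern count -/
def wv (v : List Bool) (x : ℕ) : ZMod 2 := (win v x : ZMod 2)
def cv (v : List Bool) (x : ℕ) : ZMod 2 := (ev v x : ZMod 2)

theorem cv_zero {v : List Bool} (hv : v ≠ []) : cv v 0 = 0 := by simp [cv, ev_zero hv]

theorem cv_rec {v : List Bool} (hv : v ≠ []) (x : ℕ) : cv v x = cv v (x / 2) + wv v x := by
  simp only [cv, wv]
  rw [ev_rec hv x]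
  push_cast
  ring

theorem cv_unfold {v : List Bool} (hv : v ≠ []) (x k : ℕ) :
    cv v x = cv v (x / 2 ^ k) + ∑ p ∈ Finset.range k, wv v (x / 2 ^ p) := by
  induction k with
  | zero => simp
  | succ k ih =>
    rw [Finset.sum_range_succ, ih, cv_rec hv (x / 2 ^ k), Nat.div_div_eq_div_mul, ← pow_succ]
    ring

theorem wv_congr {v : List Bool} {x y : ℕ} (hx : x ≠ 0) (hy : y ≠ 0)
    (h : x % 2 ^ v.length = y % 2 ^ v.length) : wv v x = wv v y := by
  simp [wv, win, hx, hy, h]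

theorem wv_one {v : List Bool} {x : ℕ} (hx : x ≠ 0) (h : x % 2 ^ v.length = val v) :
    wv v x = 1 := by
  simp [wv, win, hx, h]

theorem wv_zero_of_ne {v : List Bool} {x : ℕ} (h : x % 2 ^ v.length ≠ val v) :
    wv v x = 0 := by
  simp [wv, win, h]

theorem z2_add_self (x : ZMod 2) : x + x = 0 := CharTwo.add_self_eq_zero x

theorem z2_cases (x : ZMod 2) : x = 0 ∨ x = 1 := by
  fin_cases x
  · left; rfl
  · right; rfl

/-- sum over the four numbers of one window -/
def F (v : List Bool) (a a' b b' p : ℕ) : ZMod 2 :=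
  wv v (a / 2 ^ p) + wv v (a' / 2 ^ p) + wv v (b / 2 ^ p) + wv v (b' / 2 ^ p)

theorem F_exact {v : List Bool} {a a' b b' p : ℕ} (h1 : a / 2 ^ p = a' / 2 ^ p)
    (h2 : b / 2 ^ p = b' / 2 ^ p) : F v a a' b b' p = 0 := by
  unfold F
  rw [h1, h2, z2_add_self, zero_add, z2_add_self]

theorem div_ne_zero_of_le {a p : ℕ} (h : 2 ^ p ≤ a) : a / 2 ^ p ≠ 0 := by
  have := Nat.div_pos h (by positivity)
  omega

theorem F_ab {v : List Bool} {a a' b b' p : ℕ}
    (ha : 2 ^ p ≤ a) (ha' : 2 ^ p ≤ a') (hb : 2 ^ p ≤ b) (hb' : 2 ^ p ≤ b')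
    (h1 : (a / 2 ^ p) % 2 ^ v.length = (b / 2 ^ p) % 2 ^ v.length)
    (h2 : (a' / 2 ^ p) % 2 ^ v.length = (b' / 2 ^ p) % 2 ^ v.length) :
    F v a a' b b' p = 0 := by
  unfold F
  rw [wv_congr (div_ne_zero_of_le ha) (div_ne_zero_of_le hb) h1,
    wv_congr (div_ne_zero_of_le ha') (div_ne_zero_of_le hb') h2]
  generalize wv v (b / 2 ^ p) = x
  generalize wv v (b' / 2 ^ p) = y
  rw [show x + y + x + y = (x + x) + (y + y) by ring, z2_add_self, z2_add_self, add_zero]

theorem F_aa' {v : List Bool} {a a' b b' p : ℕ}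
    (ha : 2 ^ p ≤ a) (ha' : 2 ^ p ≤ a') (hb : 2 ^ p ≤ b) (hb' : 2 ^ p ≤ b')
    (h1 : (a / 2 ^ p) % 2 ^ v.length = (a' / 2 ^ p) % 2 ^ v.length)
    (h2 : (b / 2 ^ p) % 2 ^ v.length = (b' / 2 ^ p) % 2 ^ v.length) :
    F v a a' b b' p = 0 := by
  unfold F
  rw [wv_congr (div_ne_zero_of_le ha) (div_ne_zero_of_le ha') h1,
    wv_congr (div_ne_zero_of_le hb) (div_ne_zero_of_le hb') h2, z2_add_self, zero_add,
    z2_add_self]

/-- window from residue -/
theorem window_eq (x p n : ℕ) : (x / 2 ^ p) % 2 ^ n = (x % 2 ^ (p + n)) / 2 ^ p := by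
  rw [pow_add, Nat.mod_mul_right_div_self]

theorem window_congr {x y p n m : ℕ} (h : x % 2 ^ m = y % 2 ^ m) (hm : p + n ≤ m) :
    (x / 2 ^ p) % 2 ^ n = (y / 2 ^ p) % 2 ^ n := by
  rw [window_eq, window_eq]
  have h1 : x % 2 ^ (p + n) = y % 2 ^ (p + n) := by
    have hd : 2 ^ (p + n) ∣ 2 ^ m := pow_dvd_pow 2 hm
    rw [← Nat.mod_mod_of_dvd x hd, h, Nat.mod_mod_of_dvd y hd]
  rw [h1]

/-- the four-point lemma -/
theorem quad {v : List Bool} (hv : v ≠ []) {a a' b b' P Q : ℕ} (hPQ : P + 2 ≤ Q)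
    (h1 : ∀ p < P, F v a a' b b' p = 0)
    (h2 : F v a a' b b' P + F v a a' b b' (P + 1) = 1)
    (h3 : ∀ p, P + 2 ≤ p → p < Q → F v a a' b b' p = 0)
    (h4 : a / 2 ^ Q = a' / 2 ^ Q) (h5 : b / 2 ^ Q = b' / 2 ^ Q) :
    cv v a + cv v a' + cv v b + cv v b' = 1 := by
  have key : cv v a + cv v a' + cv v b + cv v b' = ∑ p ∈ Finset.range Q, F v a a' b b' p := by
    rw [cv_unfold hv a Q, cv_unfold hv a' Q, cv_unfold hv b Q, cv_unfold hv b' Q, h4, h5]
    simp only [F, Finset.sum_add_distrib]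
    generalize cv v (a' / 2 ^ Q) = x
    generalize cv v (b' / 2 ^ Q) = y
    have hx := z2_add_self x
    have hy := z2_add_self y
    linear_combination hx + hy
  rw [key]
  obtain ⟨R, rfl⟩ : ∃ R, Q = P + 2 + R := ⟨Q - (P + 2), by omega⟩
  rw [Finset.sum_range_add, Finset.sum_range_succ, Finset.sum_range_succ,
    Finset.sum_eq_zero (fun p hp => h1 p (Finset.mem_range.1 hp)),
    Finset.sum_eq_zero (fun p hp => h3 (P + 2 + p) (by omega)
      (by have := Finset.mem_range.1 hp; omega)), zero_add, add_zero]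
  exact h2

/-- special residues -/
theorem exists_special (v : List Bool) (hv : v ≠ []) :
    ∃ r₁ r₂ : ℕ, r₁ + 1 < 2 ^ (v.length + 1) ∧ r₂ + 1 < 2 ^ (v.length + 1) ∧
      r₁ % 2 ^ (v.length - 1) = r₂ % 2 ^ (v.length - 1) ∧
      r₁ / 4 = (r₁ + 1) / 4 ∧ r₂ / 4 = (r₂ + 1) / 4 ∧
      ∀ x x' y y' : ℕ, 2 ≤ x → 2 ≤ x' → 2 ≤ y → 2 ≤ y' →
        x % 2 ^ (v.length + 1) = r₁ → x' % 2 ^ (v.length + 1) = r₁ + 1 →
        y % 2 ^ (v.length + 1) = r₂ → y' % 2 ^ (v.length + 1) = r₂ + 1 →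
        (wv v x + wv v x' + wv v y + wv v y') +
          (wv v (x / 2) + wv v (x' / 2) + wv v (y / 2) + wv v (y' / 2)) = 1 := by
  have hlen : 1 ≤ v.length := List.length_pos_iff.2 hv
  have hV := val_lt v
  set n := v.length with hn
  -- residues modulo 2^n
  have hmod : ∀ x r, x % 2 ^ (n + 1) = r → x % 2 ^ n = r % 2 ^ n := by
    intro x r h
    rw [← h, Nat.mod_mod_of_dvd x (pow_dvd_pow 2 (Nat.le_succ n))]
  have hhalf : ∀ x r, x % 2 ^ (n + 1) = r → (x / 2) % 2 ^ n = r / 2 := by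
    intro x r h
    have := window_eq x 1 n
    rw [pow_one, add_comm 1 n, h] at this
    exact this
  rcases Nat.lt_or_ge 1 n with h2 | h1
  · -- length at least two
    obtain ⟨m, hm⟩ : ∃ m, n = m + 2 := ⟨n - 2, by omega⟩
    have e1 : 2 ^ n = 4 * 2 ^ m := by rw [hm, pow_add]; ring
    have e2 : 2 ^ (n + 1) = 8 * 2 ^ m := by rw [hm, pow_succ, pow_add]; ring
    have e3 : 2 ^ (n - 1) = 2 * 2 ^ m := by rw [hm, show m + 2 - 1 = m + 1 by omega, pow_succ]; ring
    have hmpos : 0 < 2 ^ m := by positivity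
    set r₁ := 2 * (val v / 2) with hr1
    set r₂ := (r₁ + 2 ^ (n - 1)) % 2 ^ n with hr2
    have hr1lt : r₁ + 1 < 2 ^ n := by
      rw [e1] at hV ⊢; omega
    have hr2' : r₂ = r₁ + 2 ^ (n - 1) ∨ r₂ + 2 ^ (n - 1) = r₁ := by
      rcases Nat.lt_or_ge (r₁ + 2 ^ (n - 1)) (2 ^ n) with h | h
      · left; rw [hr2, Nat.mod_eq_of_lt h]
      · right
        have : (r₁ + 2 ^ (n - 1)) % 2 ^ n = r₁ + 2 ^ (n - 1) - 2 ^ n := by
          rw [Nat.mod_eq_sub_mod h, Nat.mod_eq_of_lt]
          rw [e1, e3]; rw [e1] at hr1lt; omega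
        rw [hr2, this]; rw [e1, e3] at h ⊢; omega
    have hr2lt : r₂ + 1 < 2 ^ n := by
      rcases hr2' with h | h
      · have h3 : r₂ < 2 ^ n := Nat.mod_lt _ (by positivity)
        rw [e3] at h
        rw [e1] at h3 ⊢
        omega
      · omega
    refine ⟨r₁, r₂, by rw [pow_succ]; omega, by rw [pow_succ]; omega, ?_, by omega, ?_, ?_⟩
    · rcases hr2' with h | h
      · rw [h, Nat.add_mod_right]
      · rw [← h, Nat.add_mod_right]
    · rcases hr2' with h | h <;> rw [e3] at h <;> omega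
    · intro x x' y y' hx hx' hy hy' h₁ h₁' h₂ h₂'
      have a1 := hmod _ _ h₁
      have a2 := hmod _ _ h₁'
      have a3 := hmod _ _ h₂
      have a4 := hmod _ _ h₂'
      rw [Nat.mod_eq_of_lt (show r₁ < 2 ^ n by omega)] at a1
      rw [Nat.mod_eq_of_lt hr1lt] at a2
      rw [Nat.mod_eq_of_lt (show r₂ < 2 ^ n by omega)] at a3
      rw [Nat.mod_eq_of_lt hr2lt] at a4
      have c1 : wv v (x / 2) = wv v (x' / 2) := by
        refine wv_congr (by omega) (by omega) ?_
        rw [← hn, hhalf _ _ h₁, hhalf _ _ h₁']; omega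
      have c2 : wv v (y / 2) = wv v (y' / 2) := by
        refine wv_congr (by omega) (by omega) ?_
        rw [← hn, hhalf _ _ h₂, hhalf _ _ h₂']
        rcases hr2' with h | h <;> rw [e3] at h <;> omega
      have c3 : wv v y = 0 := by
        refine wv_zero_of_ne ?_
        rw [← hn, a3]
        rcases hr2' with h | h <;> rw [e3] at h <;> omega
      have c4 : wv v y' = 0 := by
        refine wv_zero_of_ne ?_
        rw [← hn, a4]
        rcases hr2' with h | h <;> rw [e3] at h <;> omega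
      have c5 : wv v x + wv v x' = 1 := by
        rcases Nat.even_or_odd' (val v) with ⟨k, hk | hk⟩
        · rw [wv_one (by omega) (by rw [← hn, a1]; omega),
            wv_zero_of_ne (by rw [← hn, a2]; omega), add_zero]
        · rw [wv_zero_of_ne (by rw [← hn, a1]; omega),
            wv_one (by omega) (by rw [← hn, a2]; omega), zero_add]
      rw [c1, c2, c3, c4, c5, z2_add_self, zero_add, z2_add_self]
      simp
  · -- length one
    have hn1 : n = 1 := by omega
    refine ⟨0, 1, by rw [hn1]; norm_num, by rw [hn1]; norm_num, by simp [hn1, Nat.mod_one], by norm_num,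
      by norm_num, ?_⟩
    intro x x' y y' hx hx' hy hy' h₁ h₁' h₂ h₂'
    have a1 := hmod _ _ h₁
    have a2 := hmod _ _ h₁'
    have a3 := hmod _ _ h₂
    have a4 := hmod _ _ h₂'
    have b1 := hhalf _ _ h₁
    have b2 := hhalf _ _ h₁'
    have b3 := hhalf _ _ h₂
    have b4 := hhalf _ _ h₂'
    have hVl : val v = 0 ∨ val v = 1 := by rw [hn1] at hV; omega
    rw [hn1] at a1 a2 a3 a4 b1 b2 b3 b4
    have hn1' : v.length = 1 := by rw [← hn]; exact hn1
    norm_num at a1 a2 a3 a4 b1 b2 b3 b4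
    rcases hVl with hV0 | hV1
    · rw [wv_one (x := x) (by omega) (by rw [hn1', hV0]; omega),
        wv_zero_of_ne (x := x') (by rw [hn1', hV0]; omega),
        wv_zero_of_ne (x := y) (by rw [hn1', hV0]; omega),
        wv_one (x := y') (by omega) (by rw [hn1', hV0]; omega),
        wv_one (x := x / 2) (by omega) (by rw [hn1', hV0]; omega),
        wv_one (x := x' / 2) (by omega) (by rw [hn1', hV0]; omega),
        wv_one (x := y / 2) (by omega) (by rw [hn1', hV0]; omega),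
        wv_zero_of_ne (x := y' / 2) (by rw [hn1', hV0]; omega)]
      decide
    · rw [wv_zero_of_ne (x := x) (by rw [hn1', hV1]; omega),
        wv_one (x := x') (by omega) (by rw [hn1', hV1]; omega),
        wv_one (x := y) (by omega) (by rw [hn1', hV1]; omega),
        wv_zero_of_ne (x := y') (by rw [hn1', hV1]; omega),
        wv_zero_of_ne (x := x / 2) (by rw [hn1', hV1]; omega),
        wv_zero_of_ne (x := x' / 2) (by rw [hn1', hV1]; omega),
        wv_zero_of_ne (x := y / 2) (by rw [hn1', hV1]; omega),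
        wv_one (x := y' / 2) (by omega) (by rw [hn1', hV1]; omega)]
      decide

end Pool.Agent.Helper73.Reg
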