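import Pool.Agent.Helper73.Reg.Defs

namespace Pool.Agent.Helper73.Reg

/-- the value of a word, read in binary -/
def val (v : List Bool) : ℕ := v.foldl (fun a b => 2 * a + b.toNat) 0

@[simp] theorem val_nil : val [] = 0 := rfl

@[simp] theorem val_append (v : List Bool) (b : Bool) : val (v ++ [b]) = 2 * val v + b.toNat := by
  simp [val]

theorem val_lt (v : List Bool) : val v < 2 ^ v.length := by
  induction v using List.reverseRecOn with
  | nil => simp
  | append_singleton v b ih =>
    rw [val_append, List.length_append, List.length_singleton, pow_succ]
    cases b <;> simp <;> omega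

theorem val_replicate_append (i : ℕ) (v : List Bool) : val (List.replicate i false ++ v) = val v := by
  induction v using List.reverseRecOn with
  | nil =>
    rw [List.append_nil]
    induction i with
    | zero => rfl
    | succ i ih => rw [List.replicate_succ', val_append, ih]; rfl
  | append_singleton v b ih => rw [← List.append_assoc, val_append, ih, val_append]

theorem val_eq_zero_iff (v : List Bool) : val v = 0 ↔ true ∉ v := by
  induction v using List.reverseRecOn with
  | nil => simp
  | append_singleton v b ih => cases b <;> simp [ih]

theorem val_cons_true (v : List Bool) : 2 ^ v.length ≤ val (true :: v) := by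
  induction v using List.reverseRecOn with
  | nil => simp [val]
  | append_singleton v b ih =>
    rw [← List.cons_append, val_append, List.length_append, List.length_singleton, pow_succ]
    omega

/-- lower bound for the value of a word containing a one -/
theorem le_val (v : List Bool) (h : true ∈ v) : 2 ^ (v.length - padLen v - 1) ≤ val v := by
  have h1 : v = List.replicate (v.takeWhile (fun b => !b)).length false ++
      v.dropWhile (fun b => !b) := by
    conv_lhs => rw [← List.takeWhile_append_dropWhile (p := fun b => !b) (l := v)]
    congr 1
    refine List.eq_replicate_of_mem fun b hb => ?_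
    have := List.mem_takeWhile_imp hb
    simpa using this
  have h2 : v.dropWhile (fun b => !b) ≠ [] := by
    intro h3
    rw [h3, List.append_nil] at h1
    rw [h1] at h
    simp at h
  obtain ⟨b, w, hw⟩ := List.exists_cons_of_ne_nil h2
  have hb : b = true := by
    have := List.head_dropWhile_not (fun b => !b) h2
    simp only [hw, List.head_cons] at this
    simpa using this
  subst hb
  have h4 : padLen v = (v.takeWhile (fun b => !b)).length := by simp [padLen, h]
  have h5 : v.length = padLen v + (w.length + 1) := by
    rw [h4]
    conv_lhs => rw [h1, hw]
    simp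
  have h6 : val v = val (true :: w) := by
    conv_lhs => rw [h1, hw]
    exact val_replicate_append _ _
  rw [h6, show v.length - padLen v - 1 = w.length by omega]
  exact val_cons_true w

theorem binExp_zero : binExp 0 = [] := by simp [binExp]

theorem binExp_of_ne_zero {n : ℕ} (h : n ≠ 0) : binExp n = binExp (n / 2) ++ [n.bodd] := by
  unfold binExp
  conv_lhs => rw [← Nat.bit_bodd_div2 n]
  rw [Nat.bits_append_bit]
  · simp [Nat.div2_val]
  · intro h0
    by_contra hb
    apply h
    rw [← Nat.bit_bodd_div2 n, h0]
    simp at hb
    simp [hb]

theorem bodd_toNat (n : ℕ) : n.bodd.toNat = n % 2 := by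
  rw [Nat.mod_two_of_bodd]

theorem length_binExp_of_ne_zero {n : ℕ} (h : n ≠ 0) :
    (binExp n).length = (binExp (n / 2)).length + 1 := by
  rw [binExp_of_ne_zero h]; simp

theorem lt_pow_length (n : ℕ) : n < 2 ^ (binExp n).length := by
  induction n using Nat.strong_induction_on with
  | _ n ih =>
    by_cases h : n = 0
    · subst h; simp [binExp_zero]
    · have := ih (n / 2) (by omega)
      rw [length_binExp_of_ne_zero h, pow_succ]
      omega

theorem pow_le_of_length {n : ℕ} (h : n ≠ 0) : 2 ^ ((binExp n).length - 1) ≤ n := by
  induction n using Nat.strong_induction_on with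
  | _ n ih =>
    by_cases h2 : n / 2 = 0
    · rw [length_binExp_of_ne_zero h, h2, binExp_zero]; simp; omega
    · have := ih (n / 2) (by omega) h2
      rw [length_binExp_of_ne_zero h, length_binExp_of_ne_zero h2, Nat.add_sub_cancel, pow_succ]
      rw [length_binExp_of_ne_zero h2, Nat.add_sub_cancel] at this
      omega

/-- suffixes of the padded expansion -/
theorem suffix_iff (i : ℕ) (v : List Bool) (n : ℕ) :
    v <:+ List.replicate i false ++ binExp n ↔
      v.length ≤ i + (binExp n).length ∧ n % 2 ^ v.length = val v := by
  induction v using List.reverseRecOn generalizing n with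
  | nil => simp [Nat.mod_one]
  | append_singleton v b ih =>
    by_cases hn : n = 0
    · subst hn
      rw [binExp_zero, List.append_nil]
      simp only [List.length_nil, add_zero, Nat.zero_mod]
      constructor
      · rintro ⟨t, ht⟩
        have h1 := congrArg List.length ht
        rw [List.length_append, List.length_replicate] at h1
        refine ⟨by omega, ?_⟩
        symm
        rw [val_eq_zero_iff]
        intro h2
        have h3 : true ∈ List.replicate i false := by
          rw [← ht]; exact List.mem_append_right _ h2
        simp at h3
      · rintro ⟨h1, h2⟩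
        have h3 := (val_eq_zero_iff _).1 h2.symm
        have h4 : v ++ [b] = List.replicate (v ++ [b]).length false := by
          refine List.eq_replicate_of_mem fun c hc => ?_
          cases c
          · rfl
          · exact absurd hc h3
        rw [h4]
        exact List.suffix_replicate_iff.2 ⟨by simpa using h1, by simp⟩
    · have h1 : (v ++ [b] <:+ List.replicate i false ++ binExp n) ↔
          (b = n.bodd ∧ v <:+ List.replicate i false ++ binExp (n / 2)) := by
        rw [binExp_of_ne_zero hn, ← List.append_assoc, List.suffix_concat_iff]
        constructor
        · rintro (h | ⟨t, h2, h3⟩)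
          · simp at h
          · have h4 := List.append_inj' h2 rfl
            rw [h4.1]
            exact ⟨by simpa using h4.2, h3⟩
        · rintro ⟨rfl, h⟩
          exact Or.inr ⟨v, rfl, h⟩
      rw [h1, ih, length_binExp_of_ne_zero hn, val_append, List.length_append,
        List.length_singleton]
      have h2 : n % 2 ^ (v.length + 1) = 2 * ((n / 2) % 2 ^ v.length) + n.bodd.toNat := by
        rw [bodd_toNat, pow_succ', Nat.mod_mul, add_comm]
      rw [h2]
      constructor
      · rintro ⟨rfl, h3, h4⟩
        exact ⟨by omega, by rw [h4]⟩
      · rintro ⟨h3, h4⟩
        have h6 : n.bodd.toNat ≤ 1 := Bool.toNat_le _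
        have h7 : b.toNat ≤ 1 := Bool.toNat_le _
        have h5 : n.bodd.toNat = b.toNat := by omega
        refine ⟨?_, by omega, by omega⟩
        cases hb : n.bodd <;> cases b <;> simp_all

/-- The window function: the word `v` matches the lowest digits of `x`. -/
def win (v : List Bool) (x : ℕ) : ℕ := if x ≠ 0 ∧ x % 2 ^ v.length = val v then 1 else 0

theorem occ_append (v w : List Bool) (b : Bool) :
    occ v (w ++ [b]) = occ v w + if v <:+ w ++ [b] then 1 else 0 := by
  unfold occ
  rw [List.inits_append, List.countP_append]
  congr 1
  simp [List.countP_cons]

theorem occ_replicate_false {v : List Bool} (hv : true ∈ v) (i : ℕ) :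
    occ v (List.replicate i false) = 0 := by
  unfold occ
  rw [List.countP_eq_zero]
  intro s hs
  rw [List.mem_inits] at hs
  rw [List.isSuffixOf_iff_suffix]
  intro h
  have h1 : true ∈ List.replicate i false := hs.subset (h.subset hv)
  simp at h1

theorem ev_zero {v : List Bool} (hv : v ≠ []) : ev v 0 = 0 := by
  unfold ev
  rw [binExp_zero, List.append_nil]
  by_cases h : true ∈ v
  · exact occ_replicate_false h _
  · simp only [padLen, h, if_false, List.replicate_zero, occ]
    rw [List.countP_eq_zero]
    intro s hs
    rw [List.mem_inits, List.prefix_nil] at hs
    subst hs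
    rw [List.isSuffixOf_iff_suffix]
    simpa using hv

/-- The basic recursion. -/
theorem ev_rec {v : List Bool} (hv : v ≠ []) (n : ℕ) : ev v n = ev v (n / 2) + win v n := by
  by_cases hn : n = 0
  · subst hn
    simp [ev_zero hv, win]
  · unfold ev
    rw [binExp_of_ne_zero hn, ← List.append_assoc, occ_append]
    congr 1
    unfold win
    rw [List.append_assoc, ← binExp_of_ne_zero hn]
    refine if_congr ?_ rfl rfl
    rw [suffix_iff]
    have hlen : 0 < v.length := List.length_pos_iff.2 hv
    constructor
    · rintro ⟨-, h2⟩
      exact ⟨hn, h2⟩
    · rintro ⟨-, h2⟩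
      refine ⟨?_, h2⟩
      by_contra hlt
      push Not at hlt
      have h3 := lt_pow_length n
      by_cases h : true ∈ v
      · have h4 := le_val v h
        have h5 : n < 2 ^ v.length :=
          h3.trans_le (Nat.pow_le_pow_right (by norm_num) (by omega))
        rw [Nat.mod_eq_of_lt h5] at h2
        have h6 : 2 ^ (binExp n).length ≤ 2 ^ (v.length - padLen v - 1) :=
          Nat.pow_le_pow_right (by norm_num) (by omega)
        omega
      · have h4 := (val_eq_zero_iff v).2 h
        rw [h4] at h2
        have h5 : n < 2 ^ v.length :=
          h3.trans_le (Nat.pow_le_pow_right (by norm_num) (by omega))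
        rw [Nat.mod_eq_of_lt h5] at h2
        exact hn h2

end Pool.Agent.Helper73.Reg
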