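import Pool.Agent.Helper73.Reg.Main

namespace Pool.Agent.Helper73.Reg

/-- for an all-zero pattern, progressions from zero change colour early -/
theorem zero_bound {v : List Bool} (hv : v ≠ []) (h0 : true ∉ v) {d : ℕ} (hd : 1 ≤ d) :
    ∃ l ≤ 2 ^ v.length, cv v (0 + l * d) ≠ cv v 0 := by
  by_contra hcon
  push Not at hcon
  have hn1 : 1 ≤ v.length := List.length_pos_iff.2 hv
  have h1 := hcon (2 ^ v.length) le_rfl
  have h2 := hcon (2 ^ (v.length - 1)) (Nat.pow_le_pow_right (by norm_num) (by omega))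
  rw [zero_add] at h1 h2
  have h3 : 2 ^ v.length * d / 2 = 2 ^ (v.length - 1) * d := by
    have : 2 ^ v.length * d = 2 * (2 ^ (v.length - 1) * d) := by
      rw [← mul_assoc, ← pow_succ']
      congr 2; omega
    omega
  rw [cv_rec hv (2 ^ v.length * d), h3, h2] at h1
  have h4 : wv v (2 ^ v.length * d) = 1 := by
    apply wv_one
    · positivity
    · rw [(val_eq_zero_iff v).2 h0]
      exact Nat.mul_mod_right _ _
  rw [h4] at h1
  have h5 : (1 : ZMod 2) = 0 := by
    have := congrArg (fun x => x - cv v 0) h1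
    simp at this
  exact absurd h5 (by decide)

/-- the correction term -/
def corr (v : List Bool) (e z y : ℕ) : ZMod 2 :=
  ∑ p ∈ Finset.range e, if ((2 ^ e * y + z) / 2 ^ p) % 2 ^ v.length = val v then 1 else 0

theorem corr_congr (v : List Bool) (e z : ℕ) {y y' : ℕ}
    (h : y % 2 ^ v.length = y' % 2 ^ v.length) : corr v e z y = corr v e z y' := by
  unfold corr
  refine Finset.sum_congr rfl fun p hp => ?_
  rw [Finset.mem_range] at hp
  have h1 : ((2 ^ e * y + z) / 2 ^ p) % 2 ^ v.length = ((2 ^ e * y' + z) / 2 ^ p) % 2 ^ v.length := by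
    rw [div_high e p y z hp.le, div_high e p y' z hp.le]
    have : (2 ^ (e - p) * y) ≡ (2 ^ (e - p) * y') [MOD 2 ^ v.length] := Nat.ModEq.mul_left _ h
    exact this.add_right _
  rw [h1]

theorem cv_split {v : List Bool} (hv : v ≠ []) {e y z : ℕ} (hy : y ≠ 0) (hz : z < 2 ^ e) :
    cv v (2 ^ e * y + z) = cv v y + corr v e z (y % 2 ^ v.length) := by
  rw [cv_unfold hv (2 ^ e * y + z) e, div_of_lt e y z hz,
    corr_congr v e z (y := y % 2 ^ v.length) (y' := y) (Nat.mod_mod _ _)]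
  congr 1
  unfold corr
  refine Finset.sum_congr rfl fun p hp => ?_
  rw [Finset.mem_range] at hp
  refine wv_eq_of_ne ?_ rfl
  apply div_ne_zero_of_le
  calc 2 ^ p ≤ 2 ^ e := Nat.pow_le_pow_right (by norm_num) hp.le
    _ ≤ 2 ^ e * y := Nat.le_mul_of_pos_right _ (Nat.pos_of_ne_zero hy)
    _ ≤ _ := Nat.le_add_right _ _

/-- finite description of the kernel -/
noncomputable def Phi (v : List Bool)
    (q : Fin (2 ^ v.length + 1) × (Fin (2 ^ v.length + 1) → Fin (2 ^ v.length + 1)) ×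
      (Fin (2 ^ v.length + 1) → Fin (2 ^ v.length) → ZMod 2)) (d : ℕ) : ℤ :=
  if d = 0 then (q.1 : ℕ) else
    (sInf {l : ℕ | 1 ≤ l ∧ ∃ hl : l < 2 ^ v.length + 1,
      cv v (l * d + q.2.1 ⟨l, hl⟩) + q.2.2 ⟨l, hl⟩ ⟨(l * d + q.2.1 ⟨l, hl⟩) % 2 ^ v.length,
        Nat.mod_lt _ (by positivity)⟩ ≠ 0} : ℕ)

theorem sInf_eq_of_le {S S' : Set ℕ} {N : ℕ} (h : ∃ l ∈ S, l ≤ N)
    (h2 : ∀ l ≤ N, l ∈ S ↔ l ∈ S') (h3 : ∀ l ∈ S', l ≤ N) : sInf S = sInf S' := by
  obtain ⟨l, hl, hlN⟩ := h
  have h4 : l ∈ S' := (h2 l hlN).1 hl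
  apply le_antisymm
  · refine le_csInf ⟨l, h4⟩ fun x hx => Nat.sInf_le ((h2 x (h3 x hx)).2 hx)
  · refine le_csInf ⟨l, hl⟩ fun x hx => ?_
    by_cases hxN : x ≤ N
    · exact Nat.sInf_le ((h2 x hxN).1 hx)
    · exact (Nat.sInf_le h4).trans (by omega)

/-- (a) for all-zero patterns -/
theorem twoRegular_lenAP {v : List Bool} (hv : v ≠ []) (h0 : true ∉ v) :
    TwoRegular (fun d => if d = 0 then 0 else (lenAP v 0 d : ℤ)) := by
  unfold TwoRegular
  apply Submodule.fg_span
  refine Set.Finite.subset (Set.finite_range (Phi v)) ?_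
  rintro _ ⟨e, r, hr, rfl⟩
  have hb : ∀ d : ℕ, 1 ≤ d → lenAP v 0 d < 2 ^ v.length + 1 := fun d hd =>
    Nat.lt_succ_of_le (lenAP_le_of (zero_bound hv h0 hd)).2
  have hh : ∀ l : Fin (2 ^ v.length + 1), (l : ℕ) * r / 2 ^ e < 2 ^ v.length + 1 := by
    intro l
    have h1 : (l : ℕ) * r / 2 ^ e ≤ l := by
      apply Nat.div_le_of_le_mul
      rw [mul_comm]
      exact Nat.mul_le_mul_right _ hr.le
    have := l.2
    omega
  refine ⟨(⟨if r = 0 then 0 else lenAP v 0 r, ?_⟩, fun l => ⟨(l : ℕ) * r / 2 ^ e, hh l⟩,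
    fun l y => corr v e ((l : ℕ) * r % 2 ^ e) y), ?_⟩
  · split_ifs with h
    · positivity
    · exact hb r (by omega)
  · funext d
    unfold Phi
    by_cases hd : d = 0
    · subst hd
      simp
    · have h1 : 2 ^ e * d + r ≠ 0 := by
        have : 0 < 2 ^ e * d := by positivity
        omega
      simp only [hd, h1, if_false]
      congr 1
      symm
      unfold lenAP
      obtain ⟨l, hl, hne⟩ := zero_bound hv h0 (d := 2 ^ e * d + r) (by omega)
      refine sInf_eq_of_le (N := 2 ^ v.length) ⟨l, ?_, hl⟩ ?_ ?_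
      · rw [mem_changes]
        refine ⟨?_, hne⟩
        by_contra h2
        have : l = 0 := by omega
        subst this
        simp at hne
      · intro l hl
        rw [mem_changes, cv_zero hv, zero_add, Set.mem_ofPred_eq]
        refine and_congr_right fun h1l => ?_
        have h3 : l < 2 ^ v.length + 1 := by omega
        rw [exists_prop_of_true h3]
        have h4 : l * (2 ^ e * d + r) = 2 ^ e * (l * d + l * r / 2 ^ e) + l * r % 2 ^ e := by
          have := Nat.div_add_mod (l * r) (2 ^ e)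
          linarith
        have h5 : 0 < l * d := Nat.mul_pos h1l (Nat.pos_of_ne_zero hd)
        have h6 : l * d + l * r / 2 ^ e ≠ 0 := (Nat.add_pos_left h5 _).ne'
        rw [h4, cv_split hv h6 (Nat.mod_lt _ (by positivity))]
      · rintro l ⟨-, hl, -⟩
        omega

/-- The classification. -/
theorem classification {v : List Bool} (hv : v ≠ []) :
    (TwoRegular (fun d => if d = 0 then 0 else (lenAP v 0 d : ℤ)) ↔ true ∉ v) ∧
    ¬ TwoRegular (fun d => if d = 0 then 0 else (maxAP v d : ℤ)) :=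
  ⟨⟨fun h h1 => not_twoRegular_lenAP h1 h, fun h => twoRegular_lenAP hv h⟩,
    not_twoRegular_maxAP hv⟩

end Pool.Agent.Helper73.Reg
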